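import Pool.Agent.H84.UC.Wnf
import Pool.Agent.H67.GT.MERT

/-!
# ROW Bvu: the sum of the errors with a growing weight

PROOF. Cauchy-Schwarz: with `E d = min (2 Eb (W d)) (2 n/φ(d))`, `E d ≤ (2 Eb (W d))^(1/2) (2 n/φ(d))^(1/2)`, so `(∑ C^ω(d) E d)² ≤ (∑ (C²)^ω(d) 2 n/φ(d)) (∑ 2 Eb (W d))` (sums over the squarefree `d ≤ Dm` with `¬ P ∣ d`).
* `∑ Eb (W d) ≤ ∑_{q ≤ Q, ¬ P ∣ q} Eb q ≤ n e^(-rh/12)` (`d ↦ W d` is injective, `W d ≤ W Dm ≤ Q`, `¬ P ∣ W d`).
* `∑_{d ≤ n squarefree} (C²)^ω(d)/φ(d) ≤ ∏_{p ≤ n} (1 + C²/(p-1)) ≤ exp(C² ∑_{p ≤ n} 1/(p-1))` (`φ(d) = ∏ (p-1)`; squarefree `d ≤ n` correspond to sets of primes `≤ n`), and `∑_{p ≤ n} 1/(p-1) ≤ ∑ 1/p + 1 ≤ loglog n + c ≤ 2 loglog n` for large `n`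
(`∑ 1/p ≤ - log ∏ (1 - 1/p)`, and `∏_{p ≤ n} (1 - 1/p) ≥ 1/(c log n)` by `MERT.mert`, see its use in `vv_low` in `Pool/Agent/H69/PG/VVf.lean`; or an upper bound for `∑ 1/p` directly from `mert`).
So the square is at most `4 n² exp(2 C² loglog n - rh/12) ≤ 4 n² exp(rh/50 - rh/12)` and the sum is at most `2 n exp(rh/100 - rh/24) ≤ n exp(-rh/48)` for large `rh`.
-/

open Finset EG H69PG H73PC

namespace H84UC

/-- the sum over squarefree numbers is at most the product over the primes -/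
theorem Bvu_prod {n : ℕ} {a : ℝ} (ha : 0 ≤ a) (S : Finset ℕ) (hS : ∀ d ∈ S, Squarefree d ∧ d ≤ n) :
    ∑ d ∈ S, a ^ d.primeFactors.card / (Nat.totient d : ℝ) ≤
      ∏ p ∈ (Icc 1 n).filter Nat.Prime, (1 + a / ((p : ℝ) - 1)) := by
  rw [Finset.prod_one_add]
  have e : ∀ d ∈ S, a ^ d.primeFactors.card / (Nat.totient d : ℝ) = ∏ p ∈ d.primeFactors, (a / ((p : ℝ) - 1)) := by
    intro d hd
    have h := Ph_some 0 (hS d hd).1
    rw [← h, Ph, prod_div_distrib, prod_const]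
    congr 1
  rw [sum_congr rfl e]
  rw [← Finset.sum_image (f := fun s : Finset ℕ => ∏ p ∈ s, (a / ((p : ℝ) - 1))) (g := fun d : ℕ => d.primeFactors) (s := S)]
  · refine sum_le_sum_of_subset_of_nonneg ?_ ?_
    · intro s hs
      rw [mem_image] at hs
      obtain ⟨d, hd, rfl⟩ := hs
      rw [mem_powerset]
      intro p hp
      have h1 := Nat.prime_of_mem_primeFactors hp
      have h2 := Nat.le_of_mem_primeFactors hp
      rw [mem_filter, mem_Icc]
      exact ⟨⟨h1.one_lt.le, h2.trans (hS d hd).2⟩, h1⟩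
    · intro s hs _
      rw [mem_powerset] at hs
      refine prod_nonneg fun p hp => ?_
      have h1 := (mem_filter.1 (hs hp)).2.two_le
      have h2 : (2 : ℝ) ≤ p := by exact_mod_cast h1
      exact div_nonneg ha (by linarith)
  · intro x hx y hy h
    have h1 := Nat.prod_primeFactors_of_squarefree (hS x hx).1
    have h2 := Nat.prod_primeFactors_of_squarefree (hS y hy).1
    have h3 : x.primeFactors = y.primeFactors := h
    rw [← h1, ← h2, h3]

theorem Bvu_exp : ∃ c : ℝ, 1 ≤ c ∧ ∀ (n : ℕ) (a : ℝ), 2 ≤ n → 0 ≤ a →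
    ∏ p ∈ (Icc 1 n).filter Nat.Prime, (1 + a / ((p : ℝ) - 1)) ≤ Real.exp (2 * a * Real.log (c * Real.log n)) := by
  obtain ⟨c, hc, _, _, _, h4, _⟩ := Pool.Agent.H67.GT.MERT.mert
  refine ⟨c, hc, fun n a hn ha => ?_⟩
  have hV := h4 Set.univ n hn
  have hlog : 0 < Real.log n := Real.log_pos (by exact_mod_cast (by omega : 1 < n))
  have hp2 : ∀ p ∈ (Icc 1 n).filter Nat.Prime, (2 : ℝ) ≤ p := by
    intro p hp
    exact_mod_cast (mem_filter.1 hp).2.two_le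
  have h1 : ∑ p ∈ (Icc 1 n).filter Nat.Prime, 1 / (p : ℝ) ≤ Real.log (c * Real.log n) := by
    have h2 : Pool.Agent.H67.GT.V Set.univ n ≤ Real.exp (-∑ p ∈ (Icc 1 n).filter Nat.Prime, 1 / (p : ℝ)) := by
      unfold Pool.Agent.H67.GT.V
      have e : Pool.Agent.H67.GT.prs Set.univ n = (Icc 1 n).filter Nat.Prime := by
        unfold Pool.Agent.H67.GT.prs
        ext p
        simp
      rw [e, ← sum_neg_distrib, Real.exp_sum]
      refine prod_le_prod (fun p hp => ?_) (fun p hp => ?_)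
      · have h3 := hp2 p hp
        have : 1 / (p : ℝ) ≤ 1 / 2 := by
          apply one_div_le_one_div_of_le <;> linarith
        linarith
      · have := Real.add_one_le_exp (-(1 / (p : ℝ)))
        linarith
    have h3 := hV.trans h2
    have h5 : 0 < c * Real.log n := by positivity
    have h6 := Real.log_le_log (by positivity) h3
    rw [Real.log_exp, one_div, Real.log_inv] at h6
    linarith
  have h2 : ∏ p ∈ (Icc 1 n).filter Nat.Prime, (1 + a / ((p : ℝ) - 1)) ≤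
      ∏ p ∈ (Icc 1 n).filter Nat.Prime, Real.exp (2 * a * (1 / (p : ℝ))) := by
    refine prod_le_prod (fun p hp => ?_) (fun p hp => ?_)
    · have h3 := hp2 p hp
      have : 0 ≤ a / ((p : ℝ) - 1) := div_nonneg ha (by linarith)
      linarith
    · have h3 := hp2 p hp
      have h4 : a / ((p : ℝ) - 1) ≤ 2 * a * (1 / (p : ℝ)) := by
        rw [mul_one_div, div_le_div_iff₀ (by linarith) (by linarith)]
        nlinarith
      have h5 := Real.add_one_le_exp (2 * a * (1 / (p : ℝ)))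
      linarith
  refine h2.trans ?_
  rw [← Real.exp_sum, ← mul_sum]
  exact Real.exp_le_exp.2 (mul_le_mul_of_nonneg_left h1 (by positivity))

theorem Bvu_Eb {P W Dm Q : ℕ} {Eb : ℕ → ℝ} (hP : P.Prime) (hW : 1 ≤ W) (hPW : ¬ P ∣ W) (hQ : W * Dm ≤ Q)
    (hE : ∀ q, 0 ≤ Eb q) (F : Finset ℕ) (hF : ∀ d ∈ F, 1 ≤ d ∧ d ≤ Dm ∧ ¬ P ∣ d) :
    ∑ d ∈ F, Eb (W * d) ≤ ∑ q ∈ (Icc 1 Q).filter (fun q => ¬ P ∣ q), Eb q := by
  rw [← Finset.sum_image (f := Eb) (g := fun d => W * d)]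
  · refine sum_le_sum_of_subset_of_nonneg ?_ fun _ _ _ => hE _
    intro q hq
    rw [mem_image] at hq
    obtain ⟨d, hd, rfl⟩ := hq
    obtain ⟨h1, h2, h3⟩ := hF d hd
    rw [mem_filter, mem_Icc]
    refine ⟨⟨Nat.mul_pos hW h1, (Nat.mul_le_mul_left W h2).trans hQ⟩, ?_⟩
    rw [hP.dvd_mul]
    push Not
    exact ⟨hPW, h3⟩
  · intro x _ y _ h
    exact Nat.eq_of_mul_eq_mul_left hW h

theorem bvu : ∃ n0 : ℕ, ∀ n : ℕ, n0 ≤ n → ∀ (P W Dm Q : ℕ) (Eb : ℕ → ℝ) (C : ℝ), P.Prime → 1 ≤ W → ¬ P ∣ W → W * Dm ≤ Q → Dm ≤ n →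
    (∀ q, 0 ≤ Eb q) → ∑ q ∈ (Icc 1 Q).filter (fun q => ¬ P ∣ q), Eb q ≤ n * Real.exp (-(BVX.rh n / 12)) →
    1 ≤ C → C ^ 2 * Real.log (Real.log n) ≤ BVX.rh n / 100 →
    ErX Dm P C (fun d => min (2 * Eb (W * d)) (2 * (n : ℝ) / Nat.totient d)) ≤ n * Real.exp (-(BVX.rh n / 48)) := by
  obtain ⟨c, hc, hx⟩ := Bvu_exp
  have hL : Filter.Tendsto (fun N : ℕ => Real.log (Real.log N)) Filter.atTop Filter.atTop :=
    Real.tendsto_log_atTop.comp (Real.tendsto_log_atTop.comp tendsto_natCast_atTop_atTop)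
  obtain ⟨n0, hn0⟩ := Filter.eventually_atTop.1
    (((BVX.rh_tendsto.eventually_ge_atTop 600).and (hL.eventually_ge_atTop (2 * Real.log c))).and
      (Filter.eventually_ge_atTop 3))
  refine ⟨n0, fun n hn P W Dm Q Eb C hP hW hPW hQ hDm hE hEs hC hCl => ?_⟩
  obtain ⟨⟨h600, hlc⟩, h3⟩ := hn0 n hn
  have hn1 : (0 : ℝ) < n := by exact_mod_cast (by omega : 0 < n)
  have hlog : 0 < Real.log n := Real.log_pos (by exact_mod_cast (by omega : 1 < n))
  have hlc0 : 0 ≤ Real.log c := Real.log_nonneg hc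
  set S := (Icc 1 Dm).filter (fun d => Squarefree d ∧ ¬ P ∣ d) with hS
  have hSm : ∀ d ∈ S, Squarefree d ∧ 1 ≤ d ∧ d ≤ Dm ∧ ¬ P ∣ d := by
    intro d hd
    rw [hS, mem_filter, mem_Icc] at hd
    exact ⟨hd.2.1, hd.1.1, hd.1.2, hd.2.2⟩
  have hA : ∑ d ∈ S, (C ^ 2) ^ d.primeFactors.card * (2 * (n : ℝ) / Nat.totient d) ≤
      2 * n * Real.exp (3 * BVX.rh n / 100) := by
    have h1 : ∑ d ∈ S, (C ^ 2) ^ d.primeFactors.card * (2 * (n : ℝ) / Nat.totient d) =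
        2 * n * ∑ d ∈ S, (C ^ 2) ^ d.primeFactors.card / (Nat.totient d : ℝ) := by
      rw [mul_sum]
      refine sum_congr rfl fun d _ => ?_
      ring
    rw [h1]
    refine mul_le_mul_of_nonneg_left ?_ (by positivity)
    refine (Bvu_prod (n := n) (by positivity) S (fun d hd => ⟨(hSm d hd).1, (hSm d hd).2.2.1.trans hDm⟩)).trans ?_
    refine (hx n (C ^ 2) (by omega) (by positivity)).trans ?_
    refine Real.exp_le_exp.2 ?_
    rw [Real.log_mul (by linarith) hlog.ne']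
    have h2 : 2 * (Real.log c + Real.log (Real.log n)) ≤ 3 * Real.log (Real.log n) := by linarith
    have h3 : C ^ 2 * (2 * (Real.log c + Real.log (Real.log n))) ≤ C ^ 2 * (3 * Real.log (Real.log n)) :=
      mul_le_mul_of_nonneg_left h2 (by positivity)
    linarith
  have hB : ∑ d ∈ S, 2 * Eb (W * d) ≤ 2 * (n * Real.exp (-(BVX.rh n / 12))) := by
    rw [← mul_sum]
    refine mul_le_mul_of_nonneg_left ((Bvu_Eb hP hW hPW hQ hE S fun d hd => ?_).trans hEs) (by norm_num)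
    exact ⟨(hSm d hd).2.1, (hSm d hd).2.2.1, (hSm d hd).2.2.2⟩
  have hf : ∀ d ∈ S, 0 ≤ (C ^ 2) ^ d.primeFactors.card * (2 * (n : ℝ) / Nat.totient d) := fun d _ => by positivity
  have hg : ∀ d ∈ S, 0 ≤ 2 * Eb (W * d) := fun d _ => mul_nonneg (by norm_num) (hE _)
  have hCS := Finset.sum_sq_le_sum_mul_sum_of_sq_le_mul S
    (r := fun d => C ^ d.primeFactors.card * min (2 * Eb (W * d)) (2 * (n : ℝ) / Nat.totient d)) hf hg
    (fun d _ => by
      have h1 : 0 ≤ 2 * Eb (W * d) := mul_nonneg (by norm_num) (hE _)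
      have h2 : 0 ≤ 2 * (n : ℝ) / Nat.totient d := by positivity
      have h3 : min (2 * Eb (W * d)) (2 * (n : ℝ) / Nat.totient d) ^ 2 ≤ (2 * (n : ℝ) / Nat.totient d) * (2 * Eb (W * d)) := by
        rw [pow_two]
        exact mul_le_mul (min_le_right _ _) (min_le_left _ _) (le_min h1 h2) h2
      calc (C ^ d.primeFactors.card * min (2 * Eb (W * d)) (2 * (n : ℝ) / Nat.totient d)) ^ 2
          = (C ^ 2) ^ d.primeFactors.card * min (2 * Eb (W * d)) (2 * (n : ℝ) / Nat.totient d) ^ 2 := by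
            rw [mul_pow, ← pow_mul, ← pow_mul, mul_comm d.primeFactors.card 2]
        _ ≤ (C ^ 2) ^ d.primeFactors.card * ((2 * (n : ℝ) / Nat.totient d) * (2 * Eb (W * d))) :=
            mul_le_mul_of_nonneg_left h3 (by positivity)
        _ = _ := by ring)
  have hEr : ErX Dm P C (fun d => min (2 * Eb (W * d)) (2 * (n : ℝ) / Nat.totient d)) =
      ∑ d ∈ S, C ^ d.primeFactors.card * min (2 * Eb (W * d)) (2 * (n : ℝ) / Nat.totient d) := by
    unfold ErX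
    rw [hS]
  rw [hEr]
  have hSA : 0 ≤ ∑ d ∈ S, (C ^ 2) ^ d.primeFactors.card * (2 * (n : ℝ) / Nat.totient d) := sum_nonneg hf
  have hSB : 0 ≤ ∑ d ∈ S, 2 * Eb (W * d) := sum_nonneg hg
  have h5 := hCS.trans (mul_le_mul hA hB hSB (by positivity))
  refine le_of_sq_le_sq ?_ (by positivity)
  refine h5.trans ?_
  have h6 : 4 * Real.exp (3 * BVX.rh n / 100) * Real.exp (-(BVX.rh n / 12)) ≤ Real.exp (-(BVX.rh n / 48)) ^ 2 := by
    have h7 : (4 : ℝ) ≤ Real.exp (7 * BVX.rh n / 600) := by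
      have := Real.add_one_le_exp (7 * BVX.rh n / 600)
      linarith
    have h8 : Real.exp (-(BVX.rh n / 48)) ^ 2 =
        Real.exp (7 * BVX.rh n / 600) * (Real.exp (3 * BVX.rh n / 100) * Real.exp (-(BVX.rh n / 12))) := by
      rw [← Real.exp_nat_mul, ← Real.exp_add, ← Real.exp_add]
      congr 1
      push_cast
      ring
    rw [h8, mul_assoc]
    exact mul_le_mul_of_nonneg_right h7 (by positivity)
  calc 2 * (n : ℝ) * Real.exp (3 * BVX.rh n / 100) * (2 * (n * Real.exp (-(BVX.rh n / 12))))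
      = n ^ 2 * (4 * Real.exp (3 * BVX.rh n / 100) * Real.exp (-(BVX.rh n / 12))) := by ring
    _ ≤ n ^ 2 * Real.exp (-(BVX.rh n / 48)) ^ 2 := mul_le_mul_of_nonneg_left h6 (by positivity)
    _ = (n * Real.exp (-(BVX.rh n / 48))) ^ 2 := by ring

end H84UC
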