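import Pool.Agent.H84.UC.Ev
import Pool.Agent.H69.PG.VVf

/-!
# ROW Vqx: the products of the local factors

All primes `p ∈ PX w z P` satisfy `w < p`; `ph c0 p = p` or `p - 1`.
* `vq_pos`, `vq_anti`: every factor is `> 0` and decreasing in `j` (`j ≤ w/2 - 1 < p - 1`).
* `vq_none`: `1 - (k+u)/p = (1 - k/p) (1 - u/(p-k))`; `vq_some`: `1 - (k-1+u)/(p-1) = (1 - (k-1)/(p-1)) (1 - u/(p-k))`; `vq_rat`: `1 - k/p = (1 - (k-1)/(p-1)) (1 - 1/p)` (all for `p > k`; `Finset.prod_mul_distrib`).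
* `vq_two`: if `P ∉ PK w z` the two products are equal, otherwise `VV w z 1 = (1 - 1/P) * VQ w z P none 1` and `1 - 1/P ≥ 1/2` (`Finset.mul_prod_erase`).
* `vq_low`: `1 - j/(p-1) ≥ 1 - (j+1)/p` (`p ≥ j + 1`), and the additional factor of `P` is at most `1`.
* `vt_vh`: `VR 0 = 1`; for `j ≤ 2N`: `1 - (j+1)/(p-k) ≤ (1 - 1/p) (1 - j/(p-k))` for every `p > k + j + 1`, so `VR (j+1) ≤ VQ none 1 * VR j`; all factors are `≥ 0` for `j ≤ 4N+3`. The sum over `k ∉ A` has at most `card ι` terms, all equal to `VT (|A|+1)`.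
-/

open Finset EG H69PG H73PC

namespace H84UC

/-- the function `V` of the abstract argument -/
noncomputable def VT (N w z P k j : ℕ) : ℝ := if j ≤ 4 * N + 3 then VR w z P k j else 0

theorem Vqx_mem {w z P p : ℕ} (h : p ∈ PX w z P) : (w : ℝ) + 1 ≤ p := by
  unfold PX PK at h
  have h1 := (Finset.mem_Ioc.1 (Finset.mem_filter.1 (Finset.mem_of_mem_erase h)).1).1
  have h2 : w + 1 ≤ p := h1
  exact_mod_cast h2

theorem Vqx_ph (c0 : Option ℕ) (p : ℕ) : (p : ℝ) - 1 ≤ ph c0 p := by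
  unfold ph
  split_ifs <;> linarith

theorem Vqx_fac {c0 : Option ℕ} {w z P p j : ℕ} (hp : p ∈ PX w z P) (h : 2 * j + 2 ≤ w) :
    0 < ph c0 p ∧ 0 < 1 - (j : ℝ) / ph c0 p := by
  have h1 := Vqx_mem hp
  have h2 := Vqx_ph c0 p
  have h3 : 2 * (j : ℝ) + 2 ≤ w := by exact_mod_cast h
  have hj : (0 : ℝ) ≤ j := Nat.cast_nonneg j
  have h4 : 0 < ph c0 p := by linarith
  refine ⟨h4, ?_⟩
  have h5 : (j : ℝ) / ph c0 p < 1 := by
    rw [div_lt_one h4]
    linarith
  linarith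

theorem Vqx_anti {c0 : Option ℕ} {w z P p j j' : ℕ} (hp : p ∈ PX w z P) (h : j ≤ j')
    (h' : 2 * j' + 2 ≤ w) : 1 - (j' : ℝ) / ph c0 p ≤ 1 - (j : ℝ) / ph c0 p := by
  have h1 := (Vqx_fac (c0 := c0) hp h').1
  have h2 : (j : ℝ) ≤ j' := by exact_mod_cast h
  have h3 : (j : ℝ) / ph c0 p ≤ (j' : ℝ) / ph c0 p := div_le_div_of_nonneg_right h2 h1.le
  linarith

theorem Vqx_step {w z P k N j p : ℕ} (hk : k + 4 * N + 5 ≤ w) (hj : j ≤ 4 * N + 3)
    (hp : p ∈ PX w z P) : 0 < (p : ℝ) - k ∧ 0 ≤ 1 - (j : ℝ) / ((p : ℝ) - k) := by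
  have h1 := Vqx_mem hp
  have h2 : (k : ℝ) + 4 * N + 5 ≤ w := by exact_mod_cast hk
  have h3 : (j : ℝ) ≤ 4 * N + 3 := by exact_mod_cast hj
  have hN : (0 : ℝ) ≤ N := Nat.cast_nonneg N
  have h4 : 0 < (p : ℝ) - k := by linarith
  refine ⟨h4, ?_⟩
  have h5 : (j : ℝ) / ((p : ℝ) - k) ≤ 1 := by
    rw [div_le_one h4]
    linarith
  linarith

theorem Vqx_q1 (w z P : ℕ) : 0 ≤ VQ w z P none 1 := by
  unfold VQ
  refine Finset.prod_nonneg fun p hp => ?_
  have h1 := Vqx_mem hp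
  have hw : (0 : ℝ) ≤ w := Nat.cast_nonneg w
  have h2 : (1 : ℝ) ≤ p := by linarith
  have h3 : ((1 : ℕ) : ℝ) / ph none p ≤ 1 := by
    unfold ph
    rw [if_pos rfl, div_le_one (by linarith)]
    push_cast
    exact h2
  linarith

theorem vq_pos {w z P j : ℕ} (c0 : Option ℕ) (h : 2 * j + 2 ≤ w) : 0 < VQ w z P c0 j := by
  unfold VQ
  exact Finset.prod_pos fun p hp => (Vqx_fac (c0 := c0) hp h).2

theorem vq_anti {w z P j j' : ℕ} (c0 : Option ℕ) (h : j ≤ j') (h' : 2 * j' + 2 ≤ w) : VQ w z P c0 j' ≤ VQ w z P c0 j := by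
  unfold VQ
  refine Finset.prod_le_prod (fun p hp => (Vqx_fac (c0 := c0) hp h').2.le) fun p hp => ?_
  exact Vqx_anti hp h h'

theorem vq_none {w z P k : ℕ} (hk : k ≤ w) (u : ℕ) : VQ w z P none (k + u) = VQ w z P none k * VR w z P k u := by
  unfold VQ VR
  rw [← Finset.prod_mul_distrib]
  refine Finset.prod_congr rfl fun p hp => ?_
  have h1 := Vqx_mem hp
  have h2 : (k : ℝ) ≤ w := by exact_mod_cast hk
  have hk0 : (0 : ℝ) ≤ k := Nat.cast_nonneg k
  have h3 : (p : ℝ) - k ≠ 0 := by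
    have : 0 < (p : ℝ) - k := by linarith
    exact this.ne'
  have h4 : (p : ℝ) ≠ 0 := by
    have : 0 < (p : ℝ) := by linarith
    exact this.ne'
  unfold ph
  rw [if_pos rfl]
  push_cast
  field_simp
  ring

theorem vq_some {w z P k : ℕ} (a : ℕ) (hk1 : 1 ≤ k) (hk : k ≤ w) (u : ℕ) :
    VQ w z P (some a) (k - 1 + u) = VQ w z P (some a) (k - 1) * VR w z P k u := by
  unfold VQ VR
  rw [← Finset.prod_mul_distrib]
  refine Finset.prod_congr rfl fun p hp => ?_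
  have h1 := Vqx_mem hp
  have h2 : (k : ℝ) ≤ w := by exact_mod_cast hk
  have hk0 : (1 : ℝ) ≤ k := by exact_mod_cast hk1
  have h3 : (p : ℝ) - k ≠ 0 := by
    have : 0 < (p : ℝ) - k := by linarith
    exact this.ne'
  have h4 : (p : ℝ) - 1 ≠ 0 := by
    have : 0 < (p : ℝ) - 1 := by linarith
    exact this.ne'
  have h5 : ph (some a) p = (p : ℝ) - 1 := by
    unfold ph
    rw [if_neg (Option.some_ne_none a)]
  rw [h5]
  push_cast [Nat.cast_sub hk1]
  field_simp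
  ring

theorem vq_rat {w z P k : ℕ} (a : ℕ) (hk1 : 1 ≤ k) (hk : k ≤ w) :
    VQ w z P none k = VQ w z P (some a) (k - 1) * VQ w z P none 1 := by
  unfold VQ
  rw [← Finset.prod_mul_distrib]
  refine Finset.prod_congr rfl fun p hp => ?_
  have h1 := Vqx_mem hp
  have h2 : (k : ℝ) ≤ w := by exact_mod_cast hk
  have hk0 : (1 : ℝ) ≤ k := by exact_mod_cast hk1
  have h3 : (p : ℝ) ≠ 0 := by
    have : 0 < (p : ℝ) := by linarith
    exact this.ne'
  have h4 : (p : ℝ) - 1 ≠ 0 := by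
    have : 0 < (p : ℝ) - 1 := by linarith
    exact this.ne'
  have h5 : ph (some a) p = (p : ℝ) - 1 := by
    unfold ph
    rw [if_neg (Option.some_ne_none a)]
  have h6 : ph none p = (p : ℝ) := by
    unfold ph
    rw [if_pos rfl]
  rw [h5, h6]
  push_cast [Nat.cast_sub hk1]
  field_simp
  ring

theorem vq_two {w z P : ℕ} (hw : 2 ≤ w) : VQ w z P none 1 ≤ 2 * VV w z 1 := by
  have hp2 : ∀ p ∈ PK w z, (1 : ℝ) / p ≤ 1 / 2 := by
    intro p hp
    unfold PK at hp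
    have h1 := (Finset.mem_Ioc.1 (Finset.mem_filter.1 hp).1).1
    have h2 : (2 : ℝ) ≤ p := by
      have : 2 ≤ p := by omega
      exact_mod_cast this
    exact one_div_le_one_div_of_le (by norm_num) h2
  have hV : VV w z 1 = ∏ p ∈ PK w z, (1 - (1 : ℝ) / p) := by
    unfold VV
    push_cast
    rfl
  have hQ : VQ w z P none 1 = ∏ p ∈ (PK w z).erase P, (1 - (1 : ℝ) / p) := by
    unfold VQ PX
    refine Finset.prod_congr rfl fun p _ => ?_
    unfold ph
    rw [if_pos rfl]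
    push_cast
    rfl
  rw [hV, hQ]
  have h2 : 0 ≤ ∏ x ∈ (PK w z).erase P, (1 - (1 : ℝ) / x) :=
    Finset.prod_nonneg fun x hx => by
      have := hp2 x (Finset.mem_of_mem_erase hx)
      linarith
  by_cases hP : P ∈ PK w z
  · rw [← Finset.mul_prod_erase (PK w z) (fun p => 1 - (1 : ℝ) / (p : ℝ)) hP]
    have h3 := hp2 P hP
    nlinarith
  · rw [Finset.erase_eq_of_notMem hP] at h2 ⊢
    linarith

theorem vq_low {w z P j : ℕ} (c0 : Option ℕ) (h : 2 * j + 4 ≤ w) : VV w z (j + 1) ≤ VQ w z P c0 j := by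
  have hw : 2 * (j : ℝ) + 4 ≤ w := by exact_mod_cast h
  have hj : (0 : ℝ) ≤ j := Nat.cast_nonneg j
  have hf : ∀ p ∈ PK w z, 0 ≤ 1 - ((j + 1 : ℕ) : ℝ) / p := by
    intro p hp
    unfold PK at hp
    have h1 : w + 1 ≤ p := (Finset.mem_Ioc.1 (Finset.mem_filter.1 hp).1).1
    have h2 : (w : ℝ) + 1 ≤ p := by exact_mod_cast h1
    have h3 : ((j + 1 : ℕ) : ℝ) / p ≤ 1 := by
      rw [div_le_one (by linarith)]
      push_cast
      linarith
    linarith
  have h1 : VV w z (j + 1) ≤ ∏ p ∈ (PK w z).erase P, (1 - ((j + 1 : ℕ) : ℝ) / p) := by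
    unfold VV
    by_cases hP : P ∈ PK w z
    · rw [← Finset.mul_prod_erase (PK w z) (fun p => 1 - ((j + 1 : ℕ) : ℝ) / (p : ℝ)) hP]
      have h2 : 0 ≤ ∏ p ∈ (PK w z).erase P, (1 - ((j + 1 : ℕ) : ℝ) / p) :=
        Finset.prod_nonneg fun p hp => hf p (Finset.mem_of_mem_erase hp)
      have h3 : 1 - ((j + 1 : ℕ) : ℝ) / (P : ℝ) ≤ 1 := by
        have : 0 ≤ ((j + 1 : ℕ) : ℝ) / (P : ℝ) := by positivity
        linarith
      exact (mul_le_mul_of_nonneg_right h3 h2).trans (by rw [one_mul])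
    · rw [Finset.erase_eq_of_notMem hP]
  refine h1.trans ?_
  unfold VQ PX
  refine Finset.prod_le_prod (fun p hp => hf p (Finset.mem_of_mem_erase hp)) fun p hp => ?_
  have h2 := Vqx_mem (P := P) hp
  have h3 := Vqx_ph c0 p
  have h4 : 0 < (p : ℝ) - 1 := by linarith
  have h5 : (j : ℝ) / ph c0 p ≤ (j : ℝ) / ((p : ℝ) - 1) :=
    div_le_div_of_nonneg_left hj h4 h3
  have h6 : (j : ℝ) / ((p : ℝ) - 1) ≤ ((j + 1 : ℕ) : ℝ) / p := by
    rw [div_le_div_iff₀ h4 (by linarith)]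
    push_cast
    nlinarith
  linarith

theorem vt_nonneg {N w z P k : ℕ} (hk : k + 4 * N + 5 ≤ w) (j : ℕ) : 0 ≤ VT N w z P k j := by
  unfold VT
  split_ifs with h
  · unfold VR
    exact Finset.prod_nonneg fun p hp => (Vqx_step hk h hp).2
  · exact le_rfl

theorem vt_vh {ι : Type} [Fintype ι] [DecidableEq ι] {N w z P k : ℕ} (hN : 1 ≤ N) (hk : k + 4 * N + 5 ≤ w) :
    Vh (Vc (VT N w z P k) : Finset ι → ℝ) ((Fintype.card ι : ℝ) * VQ w z P none 1) (2 * N + 1) := by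
  refine ⟨fun U => vt_nonneg hk _, ?_, mul_nonneg (Nat.cast_nonneg _) (Vqx_q1 w z P), ?_⟩
  · unfold Vc VT VR
    rw [Finset.card_empty, if_pos (by omega)]
    refine Finset.prod_eq_one fun p _ => ?_
    simp
  · intro A hA
    have h1 : ∀ i ∈ Aᶜ, Vc (VT N w z P k) (insert i A) ≤ VQ w z P none 1 * VT N w z P k A.card := by
      intro i hi
      have hi' : i ∉ A := by rwa [Finset.mem_compl] at hi
      unfold Vc
      rw [Finset.card_insert_of_notMem hi']
      unfold VT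
      rw [if_pos (by omega), if_pos (by omega)]
      unfold VR VQ
      rw [← Finset.prod_mul_distrib]
      refine Finset.prod_le_prod (fun p hp => (Vqx_step hk (by omega) hp).2) fun p hp => ?_
      have h2 := Vqx_step (j := A.card + 1) hk (by omega) hp
      have h3 := Vqx_mem hp
      have hk0 : (0 : ℝ) ≤ k := Nat.cast_nonneg k
      have hp0 : 0 < (p : ℝ) := by linarith [h2.1]
      unfold ph
      rw [if_pos rfl]
      push_cast
      have hc : (0 : ℝ) ≤ (A.card : ℝ) := Nat.cast_nonneg _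
      have h4 : (1 - 1 / (p : ℝ)) * (1 - (A.card : ℝ) / ((p : ℝ) - k)) - (1 - ((A.card : ℝ) + 1) / ((p : ℝ) - k)) =
          (k + A.card) / (p * ((p : ℝ) - k)) := by
        have h5 := h2.1.ne'
        field_simp
        ring
      have h6 : 0 ≤ ((k : ℝ) + A.card) / (p * ((p : ℝ) - k)) :=
        div_nonneg (by linarith) (mul_nonneg hp0.le h2.1.le)
      linarith
    refine (Finset.sum_le_sum h1).trans ?_
    rw [Finset.sum_const, nsmul_eq_mul]
    have h2 : ((Aᶜ).card : ℝ) ≤ Fintype.card ι := by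
      exact_mod_cast Finset.card_le_univ _
    have h3 : 0 ≤ VQ w z P none 1 * VT N w z P k A.card :=
      mul_nonneg (Vqx_q1 w z P) (vt_nonneg hk _)
    calc ((Aᶜ).card : ℝ) * (VQ w z P none 1 * VT N w z P k A.card) ≤
        (Fintype.card ι : ℝ) * (VQ w z P none 1 * VT N w z P k A.card) :=
          mul_le_mul_of_nonneg_right h2 h3
      _ = _ := by
        unfold Vc
        ring

end H84UC
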