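import Pool.Agent.H84.UC.Hy
import Pool.Agent.H84.UC.Vqx
import Pool.Agent.H91.UC.Ab3
import Pool.Agent.H73.PC.CoB

/-!
# Cbx: the abstract theorem applied to the cluster
-/

open Finset EG H69PG H73PC

namespace H84UC

variable {κ ι : Type} [Fintype κ] [DecidableEq κ] [Fintype ι] [DecidableEq ι]

theorem Cb_th (w z P L : ℕ) : thX w z P L = 0 ∨ thX w z P L = 1 := by
  classical
  unfold thX
  split_ifs
  · exact Or.inr rfl
  · exact Or.inl rfl

theorem Cb_bX {ι : Type} (w z P W R : ℕ) (c : ι → ℕ) (i : ι) (t : ℕ) : 0 ≤ bX w z P W R c i t := by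
  unfold bX be
  rcases Cb_th w z P (W * t + c i) with h | h <;> rw [h]
  · simp
  · rw [one_mul]
    exact sq_nonneg _

theorem Cb_rough {ι : Type} {w z P W m R y : ℕ} {Z : ℕ → ℕ} {f0 : ℕ → ℝ} {c : ι → ℕ} (hZ0 : Z 0 = 1) (hZ : Monotone Z)
    (hR : 1 ≤ R) (hRy : R ≤ y) (hzy : z ≤ y) (hZy : ∀ a ≤ m, Z a ≤ y) {i : ι} {t : ℕ}
    (hr : ∀ p : ℕ, p.Prime → p ≤ y → ¬ p ∣ W * t + c i) :
    1 ≤ bX w z P W R c i t ∧ ∀ a ∈ Icc 1 m, gX w z P W Z f0 c i a t = - (f0 a * wA Z (primorial z) a) := by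
  have hth : thX w z P (W * t + c i) = 1 := by
    unfold thX
    rw [if_pos]
    intro p hp
    unfold PX PK at hp
    rw [Finset.mem_erase, Finset.mem_filter, Finset.mem_Ioc] at hp
    exact hr p hp.2.2 (hp.2.1.2.trans hzy)
  constructor
  · unfold bX be Fn
    rw [hth, H4v_filter hR hRy hr, Finset.sum_singleton]
    unfold lb
    rw [lam_sel_one _ R hR]
    norm_num
  · intro a ha
    rw [Finset.mem_Icc] at ha
    unfold gX
    rw [if_neg (by omega), hth]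
    have hZa : 1 ≤ Z a := by
      have := hZ (Nat.zero_le a)
      rw [hZ0] at this
      exact this
    have h1 : Fn (sq (primorial z) (Z a)) (lamA Z (primorial z) a) (W * t + c i) = wA Z (primorial z) a := by
      unfold Fn
      rw [H4v_filter hZa (hZy a ha.2) hr, Finset.sum_singleton, lamA_one _ hZ0 hZ]
    rw [h1]
    ring

open Classical in
theorem cbx {N mP mH M w z P W R Sm T m' y0 : ℕ} {ZP ZH : ℕ → ℕ} {vP vH f0 y : ℕ → ℝ} {lP lH vm τ Γ η Wm : ℝ} {Yp : κ → ℝ}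
    (hS : Sd κ ι N mP mH M z R Sm ZP ZH vP vH f0 y lP lH Γ) (hN : 1 ≤ N) (hWm : 1 ≤ Wm)
    (hwm : ∀ a ≤ mH, wA ZH (primorial z) a ≤ Wm) {cH : κ → ℕ} {c : ι → ℕ} (hT : 1 ≤ T) (hκ : 1 ≤ Fintype.card κ)
    (hw : 2 * Fintype.card κ + 8 * N + 10 ≤ w)
    (hMv : Mu w z P W (2 * M) (Fintype.card κ + 4 * N + 2) Sm Γ η (range T) (T : ℝ) univ none (Sum.elim cH c))
    (hMp : ∀ h0 : κ, Mu w z P W (2 * M) (Fintype.card κ + 4 * N + 2) Sm Γ η ((range T).filter (fun t => (W * t + cH h0).Prime)) (Yp h0)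
      (univ.erase (Sum.inl h0)) (some (cH h0)) (Sum.elim cH c))
    (hc : ∀ h, z < cH h ∧ ∀ a ≤ mH, ZH a < cH h)
    (hI0 : 1 ≤ I0 κ mH vH lH y (wA ZH (primorial z))) (hIp : ∀ h0 : κ, 1 ≤ Ip mH vH lH y (wA ZH (primorial z)) h0)
    (hv0 : ∀ a, 0 ≤ vP a) (hv00 : vP 0 = 0) (hvm : ∀ a ∈ Icc 1 mP, vP a ≤ vm) (hNv : ∀ a ∈ Icc 1 mP, lP ≤ N * vP a)
    (hl0 : 0 ≤ lP) (hτ : 0 ≤ τ)
    (hq1 : ∑ a ∈ Icc 1 mP, f0 a * wA ZP (primorial z) a = 1) (hRy : R ≤ y0) (hzy : z ≤ y0) (hZy : ∀ a ≤ mP, ZP a ≤ y0)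
    (hrat : 2 * ((m' : ℝ) + 1) * (I0 κ mH vH lH y (wA ZH (primorial z)) * ((T : ℝ) * VQ w z P none (Fintype.card κ))) ≤
      ∑ h0 : κ, Ip mH vH lH y (wA ZH (primorial z)) h0 * (Yp h0 * VQ w z P (some (cH h0)) (Fintype.card κ - 1)))
    (hE1 : (η * (Wm * (∑ a ∈ Icc 1 mH, y a) ^ Fintype.card κ) ^ 2) *
      (1 + ((mP : ℝ) + 1) ^ 2 * ((Fintype.card ι : ℝ) * VQ w z P none 1)) ^ (2 * N) ≤ 1 / 8)
    (hE2 : (Fintype.card κ : ℝ) * ((η * (Wm * (∑ a ∈ Icc 1 mH, y a) ^ Fintype.card κ) ^ 2) * ((2 * (N : ℝ) + 1) *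
      (1 + ((mP : ℝ) + 1) ^ 2 * ((Fintype.card ι : ℝ) * VQ w z P none 1)) ^ (2 * N + 1))) ≤ 1 / 8)
    (hB : (Fintype.card κ : ℝ) * (1 / GG (primorial z) R * (((Fintype.card ι : ℝ) * VQ w z P none 1) *
      Real.exp (((Fintype.card ι : ℝ) * VQ w z P none 1) *
        (∑ a ∈ Icc 1 mP, f0 a ^ 2 * wA ZP (primorial z) a * (Real.exp (τ * vP a) - 1)) - τ * (lP - vm)))) ≤ 1 / 4) :
    ∃ t ∈ range T, (∀ i, ∃ p : ℕ, p.Prime ∧ p ≤ y0 ∧ p ∣ W * t + c i) ∧
      m' + 1 ≤ ((univ : Finset κ).filter (fun h => (W * t + cH h).Prime)).card := by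
  have hη : 0 ≤ η := hMv.2.1
  have hz := hS.z2
  have hΓ := hS.Γ_one
  have hΓ0 : 0 ≤ Γ := by linarith
  obtain ⟨k, hk⟩ : ∃ k : ℕ, k = Fintype.card κ := ⟨_, rfl⟩
  have hkw : k + 4 * N + 5 ≤ w := by omega
  have hVk : 0 < VQ w z P none (Fintype.card κ) := vq_pos none (by omega)
  have hVk1 : ∀ a, 0 < VQ w z P (some a) (Fintype.card κ - 1) := fun a => vq_pos (some a) (by omega)
  have hVf0 : ∀ u, 0 ≤ VT N w z P (Fintype.card κ) u := vt_nonneg (by omega)
  have hVfA : ∀ u, Fintype.card κ + u ≤ Fintype.card κ + 4 * N + 2 →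
      VQ w z P none (Fintype.card κ + u) = VQ w z P none (Fintype.card κ) * VT N w z P (Fintype.card κ) u := by
    intro u hu
    unfold VT
    rw [if_pos (by omega)]
    exact vq_none (by omega) u
  have hVfB : ∀ a u, Fintype.card κ - 1 + u ≤ Fintype.card κ + 4 * N + 2 →
      VQ w z P (some a) (Fintype.card κ - 1 + u) = VQ w z P (some a) (Fintype.card κ - 1) * VT N w z P (Fintype.card κ) u := by
    intro a u hu
    unfold VT
    rw [if_pos (by omega)]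
    exact vq_some a hκ (by omega) u
  set Q := primorial z with hQ
  set S1 := ∑ a ∈ Icc 1 mH, y a with hS1
  have hTr : (1 : ℝ) ≤ T := by exact_mod_cast hT
  have hf0 := hS.f0_nonneg
  have hs0 : ∀ a, 0 ≤ sA ZP Q f0 a := by
    intro a
    unfold sA
    split_ifs
    · exact zero_le_one
    · exact mul_nonneg (sq_nonneg _) (wA_nonneg _ hS.ZmP a)
  have hsum1 : ∑ a ∈ Icc 1 mP, sA ZP Q f0 a * (Real.exp (τ * vP a) - 1) =
      ∑ a ∈ Icc 1 mP, f0 a ^ 2 * wA ZP Q a * (Real.exp (τ * vP a) - 1) := by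
    refine Finset.sum_congr rfl fun a ha => ?_
    unfold sA
    rw [if_neg (by have := (Finset.mem_Icc.1 ha).1; omega)]
  have hX : 0 < I0 κ mH vH lH y (wA ZH Q) * ((T : ℝ) * VQ w z P none (Fintype.card κ)) := by positivity
  have hres := H91UC.ab3 (ι := ι) (m := mP) (N := N) (v := vP) (l := lP) (vm := vm) (τ := τ)
    (V := Vc (VT N w z P (Fintype.card κ))) (μ := (Fintype.card ι : ℝ) * VQ w z P none 1) (vt_vh hN (by omega))
    (s := sA ZP Q f0) (q := fun a => f0 a * wA ZP Q a)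
    hs0 (by unfold sA; simp) hv0 hv00 hvm hN hNv hl0 hτ
    (fun a => mul_nonneg (hf0 a) (wA_nonneg _ hS.ZmP a)) hq1
    (κ := κ) (M := m' + 1) (Nat.succ_le_succ (Nat.zero_le m'))
    (T := range T) (g := gX w z P W ZP f0 c) (β := bX w z P W R c)
    (ρ := fun i t => ∀ p : ℕ, p.Prime → p ≤ y0 → ¬ p ∣ W * t + c i)
    (η := η * (Wm * S1 ^ Fintype.card κ) ^ 2) (G := 1 / GG Q R)
    (mul_nonneg hη (sq_nonneg _)) (by have := CoB_GG Q R; positivity)
    (fun i t => by unfold gX; simp)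
    (fun i t => Cb_bX w z P W R c i t)
    (fun i t _ hr => Cb_rough hS.Z0P hS.ZmP hS.R_pos hRy hzy hZy hr)
    (pr := fun h t => (W * t + cH h).Prime)
    (w := fun t => La mH vH lH y (BlX w z P W ZH cH) t ^ 2)
    (fun t => sq_nonneg _)
    (X := I0 κ mH vH lH y (wA ZH Q) * ((T : ℝ) * VQ w z P none (Fintype.card κ)))
    (Xj := fun h => Ip mH vH lH y (wA ZH Q) h * (Yp h * VQ w z P (some (cH h)) (Fintype.card κ - 1)))
    hX
    (fun h => mul_nonneg (by linarith [hIp h]) (mul_nonneg (hMp h).1 (hVk1 _).le))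
    (Vj := fun _ => Vc (VT N w z P (Fintype.card κ))) (fun _ => vt_vh hN (by omega)) (fun _ _ => le_rfl)
    (fun n hn n' hn' => hx1 hS hWm hVk.le le_rfl hMv hVfA hVf0 hI0 hn hn')
    (fun h n hn n' hn' => by
      have h1 := hxB hS hWm hwm (hVk1 (cH h)).le h (fun t ht => by
        rw [Finset.mem_filter] at ht
        refine ⟨ht.2, ?_, fun a ha => ?_⟩
        · have := (hc h).1
          exact lt_of_lt_of_le this (Nat.le_add_left _ _)
        · have := (hc h).2 a ha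
          exact lt_of_lt_of_le this (Nat.le_add_left _ _)) le_rfl (hMp h) (hVfB (cH h)) hVf0 (hIp h) hn hn'
      rw [Finset.sum_filter] at h1
      have h2 : ∑ t ∈ range T, (if (W * t + cH h).Prime then
          La mH vH lH y (BlX w z P W ZH cH) t ^ 2 else 0) *
            ∏ i, (gX w z P W ZP f0 c i (n i) t * gX w z P W ZP f0 c i (n' i) t) =
          ∑ t ∈ range T, (if (W * t + cH h).Prime then
          La mH vH lH y (BlX w z P W ZH cH) t ^ 2 *
            ∏ i, (gX w z P W ZP f0 c i (n i) t * gX w z P W ZP f0 c i (n' i) t) else 0) := by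
        refine Finset.sum_congr rfl fun t _ => ?_
        by_cases hp : (W * t + cH h).Prime
        · rw [if_pos hp, if_pos hp]
        · rw [if_neg hp, if_neg hp, zero_mul]
      rw [← h2] at h1
      refine le_trans (le_of_eq ?_) h1
      refine congrArg abs (congrArg₂ (· - ·) ?_ rfl)
      refine Finset.sum_congr rfl fun t _ => ?_
      by_cases hp : (W * t + cH h).Prime
      · simp only [hp, if_true]
      · simp only [hp, if_false])
    (fun k n hn n' hn' hk hk' => hx2 hS hWm hVk.le le_rfl hMv hVfA hVf0 hI0 hn hn' k hk hk')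
    (by
      push_cast
      exact hrat)
    hE1 hE2 (by rw [hsum1]; exact hB)
  obtain ⟨t, ht, -, h1, h2⟩ := hres
  refine ⟨t, ht, fun i => ?_, ?_⟩
  · have h3 := h1 i
    push Not at h3
    exact h3
  · refine le_trans h2 (le_of_eq (congrArg Finset.card ?_))
    ext h
    simp only [Finset.mem_filter]

end H84UC
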