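import Pool.Agent.H73.PC.Dg
import Pool.Agent.H73.PC.DsB
import Pool.Agent.H17.BX.Defs

/-!
# MP_028722, uniform chains of large gaps: definitions

For every `m` there is `c > 0` such that every large `x` has `m` consecutive gaps between primes `≤ x`, each at least `c log x loglog x`.
Overview: /team-store/H84_UC.md

`P`: the exceptional prime of the Bombieri-Vinogradov theorem with the strong error term (`Pool/Agent/H17/BX`); it does not divide any modulus.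
-/

open Finset EG H69PG H73PC

namespace H84UC

/-- the sifting primes: `K < p ≤ z`, `p ≠ P` -/
def PX (K z P : ℕ) : Finset ℕ := (PK K z).erase P

open Classical in
/-- `1` if `L` has no prime factor in `PX K z P`, else `0` -/
noncomputable def thX (K z P L : ℕ) : ℝ := if ∀ p ∈ PX K z P, ¬ p ∣ L then 1 else 0

/-- the product of the local factors for `j` forms, when the classes are restricted by `c0` -/
noncomputable def VQ (K z P : ℕ) (c0 : Option ℕ) (j : ℕ) : ℝ := ∏ p ∈ PX K z P, (1 - (j : ℝ) / ph c0 p)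

/-- the product of the local factors for `j` more forms, given `k` forms -/
noncomputable def VR (K z P k j : ℕ) : ℝ := ∏ p ∈ PX K z P, (1 - (j : ℝ) / ((p : ℝ) - k))

/-- the product of the primes `p ≤ w`, `p ≠ P` -/
def WX (w P : ℕ) : ℕ := ∏ p ∈ PX 0 w P, p

noncomputable def w0 (n : ℕ) : ℕ := ⌊BVX.rh n / 200⌋₊

noncomputable def K0 (n : ℕ) : ℕ := ⌊Real.log n ^ 3⌋₊

noncomputable def Wn (n P : ℕ) : ℕ := WX (w0 n) P

def Xn (n : ℕ) : ℕ := n / 2

noncomputable def Tn (n P : ℕ) : ℕ := n / (4 * Wn n P)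

/-- the shifts `k ≤ D` which are coprime to `W` in the class `b` -/
noncomputable def RX (n P D b : ℕ) : Finset ℕ := (Icc 1 D).filter (fun k => Nat.Coprime (Xn n + b + k) (Wn n P))

/-- as `Dst`, for the moduli which are not divisible by `P` -/
structure DsX (w Dm W P : ℕ) (c0 : Option ℕ) (Ts : Finset ℕ) (Y : ℝ) (E : ℕ → ℝ) : Prop where
  Y_nonneg : 0 ≤ Y
  E_nonneg : ∀ d, 0 ≤ E d
  mem : ∀ t ∈ Ts, ∀ p : ℕ, p.Prime → w < p → p ≤ Dm → al W c0 p t
  cnt : ∀ d : ℕ, Squarefree d → d ≤ Dm → ¬ P ∣ d → (∀ p : ℕ, p.Prime → p ∣ d → w < p) → ∀ a : ℕ,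
    (∀ p : ℕ, p.Prime → p ∣ d → al W c0 p a) →
    |((Ts.filter (fun t => t ≡ a [MOD d])).card : ℝ) - Y / Ph c0 d| ≤ E d

/-- the errors of the moduli not divisible by `P` -/
noncomputable def ErX (Dm P : ℕ) (C : ℝ) (E : ℕ → ℝ) : ℝ :=
  ∑ d ∈ (Icc 1 Dm).filter (fun d => Squarefree d ∧ ¬ P ∣ d), C ^ d.primeFactors.card * E d

/-- a function of one form of the shape `θ · (divisor sum)`, mean value `s`, moduli at most `sz` -/
def Cu (K z P M : ℕ) (Γ : ℝ) (sz : ℕ) (F : ℕ → ℝ) (s : ℝ) : Prop :=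
  ∃ (D : Finset ℕ) (f : ℕ → ℝ), Good (primorial z) D ∧ (∀ B ∈ D, B ≤ z ^ M ∧ B ≤ sz) ∧
    (∀ p : ℕ, p.Prime → z < p → ∑ B ∈ D.filter (fun B => p ∣ B), |f B| / (B : ℝ) ≤ 3 / (p : ℝ) * (4 * Γ ^ 5)) ∧
    (∀ B ∈ D, |f B| ≤ 4 * Γ ^ 2 * 3 ^ B.primeFactors.card) ∧ (∑ B ∈ D, |f B| / (B : ℝ) ≤ 4 * Γ ^ 5) ∧
    (∀ L, F L = thX K z P L * Fn D f L) ∧ SS D f 1 = s

/-- mean values of products over sets `U ⊆ S` with at most `J` elements and total size of the moduli at most `Sm` -/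
def Mu {ι : Type} (K z P W M J Sm : ℕ) (Γ η : ℝ) (Ts : Finset ℕ) (Y : ℝ) (S : Finset ι) (c0 : Option ℕ) (c : ι → ℕ) : Prop :=
  0 ≤ Y ∧ 0 ≤ η ∧ ∀ U ⊆ S, U.card ≤ J → ∀ (F : ι → ℕ → ℝ) (s : ι → ℝ) (sz : ι → ℕ),
    (∀ i ∈ U, Cu K z P M Γ (sz i) (F i) (s i)) → ∏ i ∈ U, sz i ≤ Sm →
    |∑ t ∈ Ts, ∏ i ∈ U, F i (W * t + c i) - Y * VQ K z P c0 U.card * ∏ i ∈ U, s i| ≤ η * (Y * VQ K z P c0 U.card)

/-- the blocks of a cluster coordinate -/
noncomputable def BlX {κ : Type} (K z P W : ℕ) (Z : ℕ → ℕ) (c : κ → ℕ) (h : κ) (a t : ℕ) : ℝ :=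
  thX K z P (W * t + c h) * Fn (sq (primorial z) (Z a)) (lamA Z (primorial z) a) (W * t + c h)

/-- the amplitudes -/
noncomputable def gX {ι : Type} (K z P W : ℕ) (Z : ℕ → ℕ) (f0 : ℕ → ℝ) (c : ι → ℕ) (i : ι) (a t : ℕ) : ℝ :=
  if a = 0 then 1 else
    - f0 a * (thX K z P (W * t + c i) * Fn (sq (primorial z) (Z a)) (lamA Z (primorial z) a) (W * t + c i))

/-- the majorant of the rough numbers -/
noncomputable def bX {ι : Type} (K z P W R : ℕ) (c : ι → ℕ) (i : ι) (t : ℕ) : ℝ :=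
  thX K z P (W * t + c i) * be (primorial z) R (W * t + c i)

end H84UC
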