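import Pool.Agent.H84.UC.Dsq
import Pool.Agent.H84.UC.Bvu
import Pool.Agent.H17.BX.Pix

/-!
# ROW Dsp: the primes in the forms of the cluster

PROOF. `P`, `Eb` from `BVX.bvx_pi` (`Pool/Agent/H17/BX/Pix.lean`) with `ε = 1/20`, `C = 1`, `N = n` (for `n` large). `Q = ⌊n^(9/20)⌋`. Then `dsq` with `w = K0 n`, `W = Wn n P`, `T = Tn n P`, `N = n` and `bvu`.
* `W Dm ≤ e^(rh/144) n^(7/16) ≤ n^(9/20)` (`wn_le`, `rh n ≤ log n/100` from `wn_ev`, `1/14400 + 7/16 ≤ 9/20`), `Dm ≤ n^(7/16) < n/3 ≤ k`, `Dm ≤ n^(7/16) ≤ n/(8 W) ≤ Tn`; primes dividing `W` are `≤ w0 n ≤ K0 n`; `1/2 - 1/20 = 9/20`.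
* `Y ≥ W T/(φ(W) log n)`: `dsb_li` (`Pool/Agent/H73/PC/DsB.lean`) with `x = n`.
-/

open Finset EG H69PG H73PC

namespace H84UC

theorem dsp : ∃ n0 : ℕ, ∀ n : ℕ, n0 ≤ n → ∃ P : ℕ, P.Prime ∧ (P : ℝ) ≤ Real.exp (BVX.rh n) ∧
    ∀ k Dm : ℕ, Nat.Coprime k (Wn n P) → (n : ℝ) / 3 ≤ k → k + Wn n P * Tn n P ≤ n → (Dm : ℝ) ≤ (n : ℝ) ^ (7 / 16 : ℝ) →
    ∃ (Y : ℝ) (E : ℕ → ℝ), (Tn n P : ℝ) * Wn n P / (Nat.totient (Wn n P) * Real.log n) ≤ Y ∧
      DsX (K0 n) Dm (Wn n P) P (some k) ((range (Tn n P)).filter (fun t => (Wn n P * t + k).Prime)) Y E ∧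
      ∀ C : ℝ, 1 ≤ C → C ^ 2 * Real.log (Real.log n) ≤ BVX.rh n / 100 → ErX Dm P C E ≤ n * Real.exp (-(BVX.rh n / 48)) := by
  obtain ⟨N1, h1⟩ := BVX.bvx_pi (ε := 1 / 20) (by norm_num) 1
  obtain ⟨N2, h2⟩ := bvu
  obtain ⟨N3, h3⟩ := wn_ev
  have hev : ∀ᶠ n : ℕ in Filter.atTop, (16 : ℝ) ≤ Real.log n :=
    (Real.tendsto_log_atTop.comp tendsto_natCast_atTop_atTop).eventually_ge_atTop _
  obtain ⟨N4, h4⟩ := Filter.eventually_atTop.mp hev
  refine ⟨max (max N1 N2) (max (max N3 N4) 1), fun n hn => ?_⟩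
  have hn1 : N1 ≤ n := (le_max_left _ _).trans ((le_max_left _ _).trans hn)
  have hn2 : N2 ≤ n := (le_max_right _ _).trans ((le_max_left _ _).trans hn)
  have hn3 : N3 ≤ n := (le_max_left _ _).trans ((le_max_left _ _).trans ((le_max_right _ _).trans hn))
  have hn4 : N4 ≤ n := (le_max_right _ _).trans ((le_max_left _ _).trans ((le_max_right _ _).trans hn))
  have hn5 : 1 ≤ n := (le_max_right _ _).trans ((le_max_right _ _).trans hn)
  obtain ⟨P, hP, hPs, Eb, hE0, hE1, hE2⟩ := h1 n hn1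
  obtain ⟨-, hwK, -, -, -, -, -, hrh, hT⟩ := h3 n hn3
  have hL := h4 n hn4
  have hnpos : (0 : ℝ) < n := by exact_mod_cast hn5
  refine ⟨P, hP, hPs, fun k Dm hcop hk3 hkW hDm => ?_⟩
  set L := Real.log n with hLdef
  set W := Wn n P with hWdef
  have hnexp : (n : ℝ) = Real.exp L := (Real.exp_log hnpos).symm
  have hrpow : ∀ x : ℝ, (n : ℝ) ^ x = Real.exp (L * x) := fun x => by
    rw [Real.rpow_def_of_pos hnpos]
  have hWexp : (W : ℝ) ≤ Real.exp (L / 14400) :=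
    (wn_le n P).trans (Real.exp_le_exp.2 (by linarith))
  have hW1 : 1 ≤ W := wn_pos n P
  have hWpos : (0 : ℝ) < W := by exact_mod_cast hW1
  have hWD : (W : ℝ) * Dm ≤ Real.exp (L / 14400 + L * (7 / 16)) := by
    rw [Real.exp_add]
    rw [hrpow] at hDm
    exact mul_le_mul hWexp hDm (Nat.cast_nonneg _) (Real.exp_pos _).le
  have hn17 : (17 : ℝ) ≤ n := by
    rw [hnexp]
    have := Real.add_one_le_exp L
    linarith
  have hk3' : 3 ≤ k := by
    have : (3 : ℝ) ≤ k := by linarith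
    exact_mod_cast this
  have hDk : Dm < k := by
    have h5 : (Dm : ℝ) < n / 3 := by
      refine lt_of_le_of_lt hDm ?_
      rw [hrpow]
      have h6 : (n : ℝ) = Real.exp (L * (7 / 16)) * Real.exp (L * (9 / 16)) := by
        rw [← Real.exp_add, hnexp]
        congr 1; ring
      have h7 : (3 : ℝ) < Real.exp (L * (9 / 16)) := by
        have := Real.add_one_le_exp (L * (9 / 16))
        linarith
      have h8 := Real.exp_pos (L * (7 / 16))
      rw [h6]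
      nlinarith
    have h6 : (Dm : ℝ) < k := by linarith
    exact_mod_cast h6
  have hDT : Dm ≤ Tn n P := by
    have h5 : (Dm : ℝ) ≤ n / (8 * W) := by
      rw [le_div_iff₀ (by positivity)]
      have h6 : (n : ℝ) = Real.exp (L / 14400 + L * (7 / 16)) * Real.exp (L * (9 / 16) - L / 14400) := by
        rw [← Real.exp_add, hnexp]
        congr 1; ring
      have h7 : (8 : ℝ) ≤ Real.exp (L * (9 / 16) - L / 14400) := by
        have := Real.add_one_le_exp (L * (9 / 16) - L / 14400)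
        linarith
      have h8 := Real.exp_pos (L / 14400 + L * (7 / 16))
      rw [h6]
      calc (Dm : ℝ) * (8 * W) = 8 * (W * Dm) := by ring
        _ ≤ Real.exp (L * (9 / 16) - L / 14400) * Real.exp (L / 14400 + L * (7 / 16)) :=
            mul_le_mul h7 hWD (by positivity) (Real.exp_pos _).le
        _ = _ := by ring
    have h6 : (Dm : ℝ) ≤ Tn n P := h5.trans (hT P)
    exact_mod_cast h6
  have hDn : Dm ≤ n := by
    have : k ≤ n := by omega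
    omega
  have hQ : W * Dm ≤ ⌊(n : ℝ) ^ (1 / 2 - 1 / 20 : ℝ)⌋₊ := by
    refine Nat.le_floor ?_
    push_cast
    refine hWD.trans ?_
    rw [hrpow]
    exact Real.exp_le_exp.2 (by linarith)
  have hE : ∀ q : ℕ, 1 ≤ q → q ≤ ⌊(n : ℝ) ^ (1 / 2 - 1 / 20 : ℝ)⌋₊ → ¬ P ∣ q → ∀ a : ℕ, Nat.Coprime a q →
      ∀ y : ℕ, 2 ≤ y → y ≤ n →
      |((((Icc 1 y).filter (fun p => p.Prime ∧ p ≡ a [MOD q])).card : ℕ) : ℝ) -
        Pool.Agent.H17.ZB.Li y / (Nat.totient q : ℝ)| ≤ Eb q := by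
    intro q hq1 hq2 hPq a ha y hy1 hy2
    refine hE1 q hq1 ?_ hPq a ha y hy1 hy2
    exact (Nat.le_floor_iff (by positivity)).1 hq2
  have hsum : ∑ q ∈ (Icc 1 ⌊(n : ℝ) ^ (1 / 2 - 1 / 20 : ℝ)⌋₊).filter (fun q => ¬ P ∣ q), Eb q ≤
      n * Real.exp (-(BVX.rh n / 12)) := by
    refine le_trans (le_of_eq ?_) hE2
    refine Finset.sum_congr rfl fun q _ => ?_
    rw [abs_one, one_pow, one_mul]
  have hPW : ¬ P ∣ W := wn_P hP
  refine ⟨_, _, ?_, dsq (w := K0 n) hW1 (fun p hp h => (wn_pr hp h).trans hwK) hP hPW hk3' hDk hDT hcop hkW hQ hE0 hE,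
    fun C hC1 hC2 => h2 n hn2 P W Dm _ Eb C hP hW1 hPW hQ hDn hE0 hsum hC1 hC2⟩
  have h5 := dsb_li (W := W) (k := k) (T := Tn n P) (x := (n : ℝ)) hk3' (by
    have : ((k + W * Tn n P : ℕ) : ℝ) ≤ n := by exact_mod_cast hkW
    linarith)
  have h6 : (0 : ℝ) < (Nat.totient W : ℝ) := by exact_mod_cast Nat.totient_pos.2 hW1
  have h7 : (Tn n P : ℝ) * W / (Nat.totient W * L) = ((W : ℝ) * Tn n P / L) / Nat.totient W := by
    rw [div_div, mul_comm (Tn n P : ℝ), mul_comm L]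
  rw [h7]
  exact div_le_div_of_nonneg_right h5 h6.le

end H84UC
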