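import Pool.Agent.H84.UC.Wnf

/-!
# ROW Dsq: the integers `t < T` with `W t + k` prime, moduli prime to `P`

PROOF: adapt `dsb_gen` (`Pool/Agent/H73/PC/DsB.lean`): `dsb_one` (for one `d`, error `2 e`), `Ph_some` (`Ph (some k) d = φ(d)`), `d ≤ Dm`, `¬ P ∣ d`, `¬ P ∣ W` (`P` prime), so `¬ P ∣ W d`, `W d ≤ Q`; the class `W a + k` is coprime to `W d` for an alive `a`
(the primes dividing `d` are `> w`, those dividing `W` are `≤ w`). The second bound of the minimum: the number of `t < T` with `t ≡ a mod d` is at most `T/d + 1 ≤ 2 T/d ≤ 2 N/φ(d)` (`Crt_count` in `Pool/Agent/H69/PG/Crt.lean`, `d ≤ Dm ≤ T`, `T ≤ N`, `φ(d) ≤ d`),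
and `0 ≤ Y ≤ W T/(log 2 · φ(W)) ≤ 2 N` (`1/log t ≤ 1/log 2 ≤ 2` for `t ≥ 2`; see `dsb_li` for the integral), so both numbers are in `[0, 2N/φ(d)]`.
-/

open Finset EG H69PG H73PC

namespace H84UC

theorem Dsq_cnt {W : ℕ} (hW : 0 < W) (r T : ℕ) :
    |(((range T).filter (fun t => t ≡ r [MOD W])).card : ℝ) - (T : ℝ) / W| ≤ 1 := by
  have h1 : ((range T).filter (fun t => t ≡ r [MOD W])).card = Nat.count (· ≡ r [MOD W]) T := by
    rw [Nat.count_eq_card_filter_range]
  rw [h1, Nat.count_modEq_card T hW r]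
  have h2 : (T : ℝ) = W * (T / W : ℕ) + (T % W : ℕ) := by
    exact_mod_cast (Nat.div_add_mod T W).symm
  have hW' : (0 : ℝ) < W := by exact_mod_cast hW
  have h3 : (T : ℝ) / W = (T / W : ℕ) + (T % W : ℕ) / W := by
    rw [h2, add_div, mul_div_cancel_left₀ _ hW'.ne']
  have h4 : (0 : ℝ) ≤ (T % W : ℕ) / W := by positivity
  have h5 : ((T % W : ℕ) : ℝ) / W ≤ 1 := by
    rw [div_le_one hW']
    exact_mod_cast (Nat.mod_lt T hW).le
  rw [h3]
  push_cast
  rw [abs_le]
  split_ifs <;> constructor <;> linarith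

theorem Dsq_li {W k T : ℕ} (hk : 3 ≤ k) :
    Pool.Agent.H17.ZB.Li ((k + W * T - 1 : ℕ) : ℝ) - Pool.Agent.H17.ZB.Li ((k - 1 : ℕ) : ℝ) ≤
      2 * (W * T : ℝ) := by
  have hk1 : ((k - 1 : ℕ) : ℝ) = (k : ℝ) - 1 := by
    rw [Nat.cast_sub (by omega)]; simp
  have hk2 : ((k + W * T - 1 : ℕ) : ℝ) = (k : ℝ) + W * T - 1 := by
    rw [Nat.cast_sub (by omega)]; push_cast; ring
  have hk3 : (3 : ℝ) ≤ k := by exact_mod_cast hk
  have hWT : (0 : ℝ) ≤ (W : ℝ) * T := by positivity
  rw [hk1, hk2, Pool.Agent.H17.ZB.Li, Pool.Agent.H17.ZB.Li]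
  have hcont : ∀ b : ℝ, 2 ≤ b → IntervalIntegrable (fun t : ℝ => 1 / Real.log t) MeasureTheory.volume 2 b := by
    intro b hb
    apply ContinuousOn.intervalIntegrable
    intro t ht
    rw [Set.uIcc_of_le hb] at ht
    apply ContinuousAt.continuousWithinAt
    have h1 : (1 : ℝ) < t := by linarith [ht.1]
    exact continuousAt_const.div (Real.continuousAt_log (by linarith)) (Real.log_pos h1).ne'
  rw [intervalIntegral.integral_interval_sub_left (hcont _ (by linarith)) (hcont _ (by linarith))]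
  have h2 : ∀ t ∈ Set.Icc ((k : ℝ) - 1) (k + W * T - 1), 1 / Real.log t ≤ 2 := by
    intro t ht
    have h3 : (2 : ℝ) ≤ t := by linarith [ht.1]
    have h4 : Real.log 2 ≤ Real.log t := Real.log_le_log (by norm_num) h3
    have h5 := Real.log_two_gt_d9
    rw [div_le_iff₀ (by linarith)]
    linarith
  have h4 : IntervalIntegrable (fun t : ℝ => 1 / Real.log t) MeasureTheory.volume ((k : ℝ) - 1) (k + W * T - 1) :=
    (hcont _ (by linarith)).symm.trans (hcont _ (by linarith))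
  have h5 := intervalIntegral.integral_mono_on (by linarith) h4 (intervalIntegrable_const (c := (2 : ℝ))) h2
  rw [intervalIntegral.integral_const] at h5
  refine h5.trans (le_of_eq ?_)
  rw [smul_eq_mul]
  ring

theorem dsq {w Dm W P k T N Q : ℕ} {Eb : ℕ → ℝ} (hW : 1 ≤ W) (hWw : ∀ p : ℕ, p.Prime → p ∣ W → p ≤ w) (hP : P.Prime)
    (hPW : ¬ P ∣ W) (hk : 3 ≤ k) (hDk : Dm < k) (hDT : Dm ≤ T) (hkW : Nat.Coprime k W) (hN : k + W * T ≤ N) (hQ : W * Dm ≤ Q)
    (hE0 : ∀ q, 0 ≤ Eb q)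
    (hE : ∀ q : ℕ, 1 ≤ q → q ≤ Q → ¬ P ∣ q → ∀ a : ℕ, Nat.Coprime a q → ∀ y : ℕ, 2 ≤ y → y ≤ N →
      |((((Icc 1 y).filter (fun p => p.Prime ∧ p ≡ a [MOD q])).card : ℕ) : ℝ) -
        Pool.Agent.H17.ZB.Li y / (Nat.totient q : ℝ)| ≤ Eb q) :
    DsX w Dm W P (some k) ((range T).filter (fun t => (W * t + k).Prime))
      ((Pool.Agent.H17.ZB.Li ((k + W * T - 1 : ℕ) : ℝ) - Pool.Agent.H17.ZB.Li ((k - 1 : ℕ) : ℝ)) / (Nat.totient W : ℝ))
      (fun d => min (2 * Eb (W * d)) (2 * (N : ℝ) / Nat.totient d)) := by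
  classical
  have hφW : (1 : ℝ) ≤ (Nat.totient W : ℝ) := by
    have := Nat.totient_pos.2 hW
    exact_mod_cast this
  have hY0 : 0 ≤ (Pool.Agent.H17.ZB.Li ((k + W * T - 1 : ℕ) : ℝ) - Pool.Agent.H17.ZB.Li ((k - 1 : ℕ) : ℝ)) / (Nat.totient W : ℝ) := by
    refine div_nonneg ?_ (Nat.cast_nonneg _)
    have h1 := dsb_li (W := W) (k := k) (T := T) (x := ((k + W * T : ℕ) : ℝ)) hk (by linarith)
    refine le_trans ?_ h1
    refine div_nonneg (by positivity) (Real.log_nonneg ?_)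
    have : 1 ≤ k + W * T := by omega
    exact_mod_cast this
  have hWTN : (W : ℝ) * T ≤ N := by
    have : W * T ≤ N := by omega
    exact_mod_cast this
  have hTN : (T : ℝ) ≤ N := by
    have h1 : T ≤ W * T := Nat.le_mul_of_pos_left T hW
    have : T ≤ N := by omega
    exact_mod_cast this
  have hY1 : (Pool.Agent.H17.ZB.Li ((k + W * T - 1 : ℕ) : ℝ) - Pool.Agent.H17.ZB.Li ((k - 1 : ℕ) : ℝ)) / (Nat.totient W : ℝ) ≤ 2 * (N : ℝ) := by
    rw [div_le_iff₀ (by linarith)]
    have h1 := Dsq_li (W := W) (T := T) hk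
    have h2 : (0 : ℝ) ≤ N := Nat.cast_nonneg N
    nlinarith
  refine ⟨hY0, fun d => le_min (mul_nonneg (by norm_num) (hE0 _)) (by positivity), ?_, ?_⟩
  · intro t ht p hp _ hpD j hj hd
    have hj' : k = j := by simpa using hj
    subst hj'
    rw [mem_filter, mem_range] at ht
    have h1 := (Nat.prime_dvd_prime_iff_eq hp ht.2).1 hd
    have h2 : k ≤ W * t + k := Nat.le_add_left _ _
    omega
  · intro d hdsq hdD hPd hdw a ha
    have hWd : Nat.Coprime W d := by
      rw [Nat.coprime_comm]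
      refine Nat.coprime_of_dvd fun p hp hpd hpW => ?_
      have h1 := hdw p hp hpd
      have h2 := hWw p hp hpW
      omega
    have hd1 : 1 ≤ d := Nat.pos_of_ne_zero hdsq.ne_zero
    have hd1' : (1 : ℝ) ≤ d := by exact_mod_cast hd1
    rw [Ph_some k hdsq]
    refine le_min ?_ ?_
    · refine dsb_one (N := N) hW hk (by omega) hWd fun y hy hyN => ?_
      refine hE (W * d) (Nat.mul_pos hW hd1) ((Nat.mul_le_mul_left W hdD).trans hQ) ?_ _ ?_ y hy hyN
      · intro h
        rcases (hP.dvd_mul).1 h with h | h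
        · exact hPW h
        · exact hPd h
      · refine Nat.Coprime.mul_right ?_ ?_
        · have h3 : Nat.Coprime (W * a + k) W ↔ Nat.Coprime k W := by
            rw [Nat.coprime_mul_left_add_left]
          exact h3.2 hkW
        · refine Nat.coprime_of_dvd fun p hp h1 h2 => ?_
          exact ha p hp h2 k (by simp) h1
    · have hφ0 : (0 : ℝ) < (Nat.totient d : ℝ) := by
        have := Nat.totient_pos.2 hd1
        exact_mod_cast this
      have hφd : (Nat.totient d : ℝ) ≤ d := by exact_mod_cast Nat.totient_le d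
      have h1 := (abs_le.1 (Dsq_cnt hd1 a T)).2
      have h2 : ((((range T).filter (fun t => (W * t + k).Prime)).filter (fun t => t ≡ a [MOD d])).card : ℝ) ≤
          (((range T).filter (fun t => t ≡ a [MOD d])).card : ℝ) := by
        have h3 : (((range T).filter (fun t => (W * t + k).Prime)).filter (fun t => t ≡ a [MOD d])) ⊆
            ((range T).filter (fun t => t ≡ a [MOD d])) := by
          intro t ht
          rw [mem_filter, mem_filter] at ht
          rw [mem_filter]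
          exact ⟨ht.1.1, ht.2⟩
        exact_mod_cast card_le_card h3
      have hdT : (d : ℝ) ≤ T := by
        have : d ≤ T := hdD.trans hDT
        exact_mod_cast this
      have h4 : (1 : ℝ) ≤ (T : ℝ) / d := by
        rw [le_div_iff₀ (by linarith)]
        linarith
      have h5 : (T : ℝ) / d ≤ (N : ℝ) / (Nat.totient d : ℝ) :=
        div_le_div₀ (Nat.cast_nonneg N) hTN hφ0 hφd
      have h6 : 2 * (N : ℝ) / (Nat.totient d : ℝ) = 2 * ((N : ℝ) / (Nat.totient d : ℝ)) := by ring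
      have h7 : (0 : ℝ) ≤ ((((range T).filter (fun t => (W * t + k).Prime)).filter (fun t => t ≡ a [MOD d])).card : ℝ) :=
        Nat.cast_nonneg _
      have h8 : 0 ≤ (Pool.Agent.H17.ZB.Li ((k + W * T - 1 : ℕ) : ℝ) - Pool.Agent.H17.ZB.Li ((k - 1 : ℕ) : ℝ)) / (Nat.totient W : ℝ) / (Nat.totient d : ℝ) :=
        div_nonneg hY0 hφ0.le
      have h9 : (Pool.Agent.H17.ZB.Li ((k + W * T - 1 : ℕ) : ℝ) - Pool.Agent.H17.ZB.Li ((k - 1 : ℕ) : ℝ)) / (Nat.totient W : ℝ) / (Nat.totient d : ℝ) ≤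
          2 * (N : ℝ) / (Nat.totient d : ℝ) := div_le_div_of_nonneg_right hY1 hφ0.le
      rw [abs_le]
      constructor
      · linarith
      · linarith

end H84UC
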