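import Pool.Agent.H84.UC.Defs
import Pool.Agent.H73.PC.Eg
import Pool.Agent.H73.PC.Vg
import Pool.Agent.H60.PP.BhG

/-!
# ROW Egx: means of products of divisor sums, uniformly in the number of forms, without the prime `P`

PROOF: adapt `ega` (`Pool/Agent/H73/PC/Eg.lean`, all its lemmas `ega_th`, `ega_Fn`, `ega_cop` are public; `bhg` is replaced by `H60PP.bhG`, whose constant is absolute and which needs `4 j ≤ w`, and `Nat.log 2 z + 2 ≤ 3 log z + 4` as in `Bg.lean`).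
Expand the product over `B ∈ Fintype.piFinset Ds`; only `B ∈ PC Ds` matter. For such a `B` use `bhG` with the finite set `{t ∈ Ts : ∀ i, B i ∣ W t + c i}`, the predicate `B t p := p ≠ P ∧ ∃ i, p ∣ W t + c i`, `Y/∏ Ph (B i)` instead of `Y`,
`g p = if p = P then 0 else gd W c0 c p` and `R S = if P ∈ S then 0 else j^|S| E((∏ B i) ∏ S)`:
* `gd W c0 c p = j/ph c0 p` for `p ∈ PK w z` (`Vg_nu` in `Vg.lean`: the differences are not divisible by `p` because they are nonzero and at most `w < p` in absolute value), so `∏_{PK} (1 - g p) = VQ w z P c0 j`, and `0 ≤ g p ≤ 2 j/p`.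
* for `S ⊆ PK w z` with `P ∈ S` both sides are `0`; for `P ∉ S` the hypothesis is `crg0` (`Cr.lean`) with `e = E((∏ B i) ∏ S)`: its hypothesis `hmem` is `DsX.mem`, its hypothesis `hcnt` is `DsX.cnt` for `d = (∏ B i) ∏ S` (squarefree, `≤ (∏ B i) z^(4 b0 + 10) ≤ Dm`,
  all prime factors `> w`, and `¬ P ∣ d`: the prime factors of the `B i` are `> z ≥ P`, and `P ∉ S`).
* `∏ i, thX w z P (W t + c i)` is the indicator of: no `p ∈ PK w z`, `p ≠ P`, divides some `W t + c i`.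
-/

open Finset EG H69PG H73PC

namespace H84UC

/-- product of the indicators -/
lemma egx_th {ι : Type} [Fintype ι] (w z W P : ℕ) (c : ι → ℕ) (t : ℕ) :
    ∏ i, thX w z P (W * t + c i) =
      (open Classical in if ∀ p ∈ PK w z, ¬ (p ≠ P ∧ ∃ i, p ∣ W * t + c i) then (1 : ℝ) else 0) := by
  classical
  by_cases h : ∀ p ∈ PK w z, ¬ (p ≠ P ∧ ∃ i, p ∣ W * t + c i)
  · rw [if_pos h]
    refine prod_eq_one fun i _ => ?_
    unfold thX
    rw [if_pos]
    intro p hp hd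
    unfold PX at hp
    rw [mem_erase] at hp
    exact h p hp.2 ⟨hp.1, i, hd⟩
  · rw [if_neg h]
    push Not at h
    obtain ⟨p, hp, hpP, i, hd⟩ := h
    refine prod_eq_zero (mem_univ i) ?_
    unfold thX
    rw [if_neg]
    intro h'
    exact h' p (by unfold PX; exact mem_erase.2 ⟨hpP, hp⟩) hd

/-- the local density -/
lemma egx_gd {ι : Type} [Fintype ι] [DecidableEq ι] {w z W : ℕ} {c0 : Option ℕ} {c : ι → ℕ}
    (hF : Fw w z w W c0 c) {p : ℕ} (hp : p ∈ PK w z) : gd W c0 c p = (Fintype.card ι : ℝ) / ph c0 p := by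
  obtain ⟨h1, h2, h3⟩ := bh_mem_PK.1 hp
  rw [gd, Vg_nu hF h3 h1]
  · intro i i' hi hd
    have h7 : (c i : ℤ) - c i' ≠ 0 := by
      intro h0
      apply hi
      apply hF.inj
      omega
    have h8 := Int.le_of_dvd (abs_pos.2 h7) ((dvd_abs _ _).2 hd)
    have h9 := hF.df i i'
    omega
  · intro k hk i hd
    have h7 := hF.df0 k hk i
    have h9 : (c i : ℤ) - k ≠ 0 := by
      intro h0
      apply h7.1
      omega
    have h8 := Int.le_of_dvd (abs_pos.2 h9) ((dvd_abs _ _).2 hd)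
    have h12 := h7.2
    omega

/-- the number of blocks -/
lemma egx_log {w z : ℕ} (hw : 2 ≤ w) (hwz : w ≤ z) : (Nat.log 2 z : ℝ) + 2 ≤ 3 * Real.log z + 4 := by
  have hz : 2 ≤ z := hw.trans hwz
  have hz0 : (0 : ℝ) < z := by
    have : 0 < z := by omega
    exact_mod_cast this
  have h2 : (Nat.log 2 z : ℝ) * Real.log 2 ≤ Real.log z := by
    have h3 : ((2 ^ Nat.log 2 z : ℕ) : ℝ) ≤ z := by
      exact_mod_cast Nat.pow_log_le_self 2 (by omega)
    have h4 := Real.log_le_log (by positivity) h3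
    push_cast at h4
    rwa [Real.log_pow] at h4
  have h6 : (0 : ℝ) ≤ Nat.log 2 z := Nat.cast_nonneg _
  have h7 : (0.6931471803 : ℝ) < Real.log 2 := Real.log_two_gt_d9
  nlinarith

open Classical in
/-- the count for one tuple and one set of small primes -/
lemma egx_crg {ι : Type} [Fintype ι] [DecidableEq ι] {w z W Dm P : ℕ} (hwz : w ≤ z) (hP : P.Prime) (hPz : P ≤ z)
    {c0 : Option ℕ} {c : ι → ℕ}
    (hF : Fw w z w W c0 c) {Ts : Finset ℕ} {Y : ℝ} {E : ℕ → ℝ} (hD : DsX w Dm W P c0 Ts Y E) (B : ι → ℕ)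
    (hB : ∀ i, Squarefree (B i) ∧ Nat.Coprime (B i) (primorial z)) (hco : ∀ i i', i ≠ i' → Nat.Coprime (B i) (B i'))
    (S : Finset ℕ) (hS : S ⊆ PK w z) (hPS : P ∉ S) (hDm : (∏ i, B i) * ∏ p ∈ S, p ≤ Dm) :
    |((Ts.filter (fun t => (∀ i, B i ∣ W * t + c i) ∧ ∀ p ∈ S, ∃ i, p ∣ W * t + c i)).card : ℝ) -
        Y / (∏ i, Ph c0 (B i)) * ∏ p ∈ S, gd W c0 c p| ≤
      (Fintype.card ι : ℝ) ^ S.card * E ((∏ i, B i) * ∏ p ∈ S, p) := by
  have hSp : ∀ p ∈ S, w < p ∧ p ≤ z ∧ p.Prime := fun p hp => bh_mem_PK.1 (hS hp)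
  have hbsq : Squarefree (∏ i, B i) := sqf_prod univ B (fun i _ => (hB i).1) (fun i _ i' _ h => hco i i' h)
  have hqsq : Squarefree (∏ p ∈ S, p) := sqf_prod S (fun p => p) (fun p hp => (hSp p hp).2.2.prime.squarefree)
    (fun p hp p' hp' h => (Nat.coprime_primes (hSp p hp).2.2 (hSp p' hp').2.2).2 h)
  have hbq : Nat.Coprime (∏ i, B i) (∏ p ∈ S, p) := by
    refine Nat.Coprime.prod_left fun i _ => Nat.Coprime.prod_right fun p hp => ?_
    obtain ⟨h1, h2, h3⟩ := hSp p hp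
    exact Nat.Coprime.coprime_dvd_right ((h3.dvd_primorial_iff).2 h2) (hB i).2
  have hdsq : Squarefree ((∏ i, B i) * ∏ p ∈ S, p) := (Nat.squarefree_mul hbq).2 ⟨hbsq, hqsq⟩
  have hdpos : 0 < (∏ i, B i) * ∏ p ∈ S, p := Nat.pos_of_ne_zero hdsq.ne_zero
  have hBz : ∀ p : ℕ, p.Prime → p ∣ ∏ i, B i → z < p := by
    intro p hp h
    rw [hp.prime.dvd_finsetProd_iff] at h
    obtain ⟨i, _, hi⟩ := h
    by_contra hpw
    have h2 : Nat.Coprime (B i) p :=
      Nat.Coprime.coprime_dvd_right ((hp.dvd_primorial_iff).2 (by omega)) (hB i).2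
    exact hp.one_lt.ne' (Nat.Coprime.eq_one_of_dvd h2.symm hi)
  have hSd : ∀ p : ℕ, p.Prime → p ∣ ∏ q ∈ S, q → p ∈ S := by
    intro p hp h
    rw [hp.prime.dvd_finsetProd_iff] at h
    obtain ⟨q, hq, hpq⟩ := h
    rw [(Nat.prime_dvd_prime_iff_eq hp (hSp q hq).2.2).1 hpq]
    exact hq
  have hdw : ∀ p : ℕ, p.Prime → p ∣ (∏ i, B i) * ∏ p ∈ S, p → w < p := by
    intro p hp hpd
    rcases (hp.dvd_mul).1 hpd with h | h
    · exact hwz.trans_lt (hBz p hp h)
    · exact (hSp p (hSd p hp h)).1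
  have hPd : ¬ P ∣ (∏ i, B i) * ∏ p ∈ S, p := by
    intro hd
    rcases (hP.dvd_mul).1 hd with h | h
    · exact absurd (hBz P hP h) (not_lt.2 hPz)
    · exact hPS (hSd P hP h)
  have h := crg0 hwz hF (Ts := Ts) (Y := Y) (e := E ((∏ i, B i) * ∏ p ∈ S, p)) (hD.E_nonneg _) B hB hco S hS
    (fun t ht p hp hpd => hD.mem t ht p hp (hdw p hp hpd) ((Nat.le_of_dvd hdpos hpd).trans hDm))
    (fun a ha => by
      have h1 := hD.cnt _ hdsq hDm hPd hdw a ha
      convert h1)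
  convert h

theorem egx : ∃ C : ℕ, 1 ≤ C ∧ ∀ j b0 : ℕ, C * (j + 1) ≤ b0 → ∀ (ι : Type) [Fintype ι] [DecidableEq ι], Fintype.card ι = j →
    ∀ w z W Dm P : ℕ, 4 * j + 4 ≤ w → w ≤ z → P.Prime → P ≤ z → ∀ (c0 : Option ℕ) (c : ι → ℕ) (Ts : Finset ℕ) (Y : ℝ) (E : ℕ → ℝ),
    Fw w z w W c0 c → DsX w Dm W P c0 Ts Y E → ∀ (Ds : ι → Finset ℕ) (f : ι → ℕ → ℝ), (∀ i, Good (primorial z) (Ds i)) →
    (∀ B ∈ Fintype.piFinset Ds, (∏ i, B i) * z ^ (4 * b0 + 10) ≤ Dm) →
    |∑ t ∈ Ts, ∏ i, (thX w z P (W * t + c i) * Fn (Ds i) (f i) (W * t + c i)) -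
        Y * VQ w z P c0 j * ∑ B ∈ PC Ds, ∏ i, (f i (B i) / Ph c0 (B i))| ≤
      Real.exp (-(b0 : ℝ)) * (Y * VQ w z P c0 j * ∑ B ∈ PC Ds, ∏ i, (|f i (B i)| / Ph c0 (B i))) +
        (3 * Real.log z + 4) * ∑ B ∈ PC Ds, (∏ i, |f i (B i)|) *
          ∑ S ∈ (Sb w z (4 * b0 + 10)).filter (fun S => P ∉ S), (j : ℝ) ^ S.card * E ((∏ i, B i) * ∏ p ∈ S, p) := by
  classical
  obtain ⟨C0, hC1, hC0⟩ := H60PP.bhG
  refine ⟨C0, hC1, fun j b0 hb0 ι _ _ hj w z W Dm P hjw hwz hP hPz c0 c Ts Y E hF hD Ds f hG hDm => ?_⟩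
  have hY := hD.Y_nonneg
  have hw : 2 ≤ w := by omega
  -- the local densities
  set g : ℕ → ℝ := fun p => if p = P then 0 else gd W c0 c p with hg
  have hgd : ∀ p ∈ PK w z, 0 ≤ g p ∧ g p ≤ 2 * (j : ℝ) / p := by
    intro p hp
    have h1 := gd_bd hF hp
    rw [hj] at h1
    rw [hg]
    beta_reduce
    split_ifs
    · exact ⟨le_rfl, by positivity⟩
    · exact h1
  have hVQg : ∏ p ∈ PK w z, (1 - g p) = VQ w z P c0 j := by
    unfold VQ PX
    by_cases hPK : P ∈ PK w z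
    · rw [← mul_prod_erase _ _ hPK]
      have h1 : 1 - g P = 1 := by
        rw [hg]
        simp
      rw [h1, one_mul]
      refine prod_congr rfl fun p hp => ?_
      rw [mem_erase] at hp
      rw [hg]
      beta_reduce
      rw [if_neg hp.1, egx_gd hF hp.2, hj]
    · rw [erase_eq_of_notMem hPK]
      refine prod_congr rfl fun p hp => ?_
      have hpP : p ≠ P := by
        rintro rfl
        exact hPK hp
      rw [hg]
      beta_reduce
      rw [if_neg hpP, egx_gd hF hp, hj]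
  -- the number of `t` for the tuple `B`
  set Nn : (ι → ℕ) → ℝ := fun B =>
    (((Ts.filter (fun t => ∀ i, B i ∣ W * t + c i)).filter
      (fun t => ∀ p ∈ PK w z, ¬ (p ≠ P ∧ ∃ i, p ∣ W * t + c i))).card : ℝ) with hNn
  have hexp : ∑ t ∈ Ts, ∏ i, (thX w z P (W * t + c i) * Fn (Ds i) (f i) (W * t + c i)) =
      ∑ B ∈ Fintype.piFinset Ds, (∏ i, f i (B i)) * Nn B := by
    have h1 : ∀ t ∈ Ts, ∏ i, (thX w z P (W * t + c i) * Fn (Ds i) (f i) (W * t + c i)) =
        ∑ B ∈ Fintype.piFinset Ds, (∏ i, f i (B i)) *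
          (if (∀ i, B i ∣ W * t + c i) ∧ ∀ p ∈ PK w z, ¬ (p ≠ P ∧ ∃ i, p ∣ W * t + c i) then (1 : ℝ) else 0) := by
      intro t _
      rw [prod_mul_distrib, egx_th, ega_Fn, mul_sum]
      refine sum_congr rfl fun B _ => ?_
      by_cases h1 : ∀ p ∈ PK w z, ¬ (p ≠ P ∧ ∃ i, p ∣ W * t + c i)
      · by_cases h2 : ∀ i, B i ∣ W * t + c i
        · rw [if_pos h1, if_pos h2, if_pos ⟨h2, h1⟩]
          ring
        · have h3 : ¬ ((∀ i, B i ∣ W * t + c i) ∧ ∀ p ∈ PK w z, ¬ (p ≠ P ∧ ∃ i, p ∣ W * t + c i)) :=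
            fun h => h2 h.1
          rw [if_neg h3, if_neg h2]
          ring
      · have h3 : ¬ ((∀ i, B i ∣ W * t + c i) ∧ ∀ p ∈ PK w z, ¬ (p ≠ P ∧ ∃ i, p ∣ W * t + c i)) :=
          fun h => h1 h.2
        rw [if_neg h3, if_neg h1]
        ring
    rw [sum_congr rfl h1, sum_comm]
    refine sum_congr rfl fun B _ => ?_
    rw [← mul_sum, sum_boole]
    have e : Nn B = ((Ts.filter (fun t => (∀ i, B i ∣ W * t + c i) ∧
        ∀ p ∈ PK w z, ¬ (p ≠ P ∧ ∃ i, p ∣ W * t + c i))).card : ℝ) := by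
      rw [hNn]
      beta_reduce
      rw [filter_filter]
    rw [e]
  have hPC : ∑ B ∈ Fintype.piFinset Ds, (∏ i, f i (B i)) * Nn B =
      ∑ B ∈ PC Ds, (∏ i, f i (B i)) * Nn B := by
    symm
    unfold PC
    apply sum_subset (filter_subset _ _)
    intro B hB hB'
    have hBD := Fintype.mem_piFinset.1 hB
    have h1 : Nn B = 0 := by
      rw [hNn]
      simp only [Nat.cast_eq_zero, card_eq_zero]
      rw [filter_filter, filter_eq_empty_iff]
      rintro t _ ⟨ht, _⟩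
      apply hB'
      rw [mem_filter]
      exact ⟨hB, fun i i' hii => ega_cop hF (fun i => hG i (B i) (hBD i)) ht hii⟩
    rw [h1, mul_zero]
  rw [hexp, hPC]
  -- the estimate for one tuple
  have hone : ∀ B ∈ PC Ds, |Nn B - Y / (∏ i, Ph c0 (B i)) * VQ w z P c0 j| ≤
      Real.exp (-(b0 : ℝ)) * (Y / (∏ i, Ph c0 (B i)) * VQ w z P c0 j) +
        (3 * Real.log z + 4) * ∑ S ∈ (Sb w z (4 * b0 + 10)).filter (fun S => P ∉ S),
          (j : ℝ) ^ S.card * E ((∏ i, B i) * ∏ p ∈ S, p) := by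
    intro B hB
    unfold PC at hB
    rw [mem_filter] at hB
    obtain ⟨hB1, hB2⟩ := hB
    have hBD := Fintype.mem_piFinset.1 hB1
    have hPh : 0 < ∏ i, Ph c0 (B i) := prod_pos fun i _ => Ph_pos c0 (B i)
    set R : Finset ℕ → ℝ := fun S => if P ∈ S then 0 else (j : ℝ) ^ S.card * E ((∏ i, B i) * ∏ p ∈ S, p) with hR
    have hR0 : ∀ S, 0 ≤ R S := by
      intro S
      rw [hR]
      beta_reduce
      by_cases hPS : P ∈ S
      · rw [if_pos hPS]
      · rw [if_neg hPS]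
        exact mul_nonneg (by positivity) (hD.E_nonneg _)
    have hN : ∀ S ⊆ PK w z, ∏ p ∈ S, p ≤ z ^ (4 * b0 + 10) → ∀ Q : Finset ℕ,
        (∀ t, t ∈ Q ↔ (t ∈ Ts ∧ ∀ i, B i ∣ W * t + c i) ∧ ∀ p ∈ S, p ≠ P ∧ ∃ i, p ∣ W * t + c i) →
        |(Q.card : ℝ) - Y / (∏ i, Ph c0 (B i)) * ∏ p ∈ S, g p| ≤ R S := by
      intro S hS hS' Q hQ
      by_cases hPS : P ∈ S
      · have e1 : ∏ p ∈ S, g p = 0 := by
          refine prod_eq_zero hPS ?_
          rw [hg]
          simp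
        have e2 : Q = ∅ := by
          rw [eq_empty_iff_forall_notMem]
          intro t ht
          exact (((hQ t).1 ht).2 P hPS).1 rfl
        rw [e1, e2, hR]
        simp [hPS]
      · have h2 := egx_crg hwz hP hPz hF hD B (fun i => hG i (B i) (hBD i)) (fun i i' h => hB2 i i' h) S hS hPS
          ((Nat.mul_le_mul_left _ hS').trans (hDm B hB1))
        rw [hj] at h2
        have e1 : ∏ p ∈ S, g p = ∏ p ∈ S, gd W c0 c p := by
          refine prod_congr rfl fun p hp => ?_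
          have hpP : p ≠ P := by
            rintro rfl
            exact hPS hp
          rw [hg]
          beta_reduce
          rw [if_neg hpP]
        have e2 : R S = (j : ℝ) ^ S.card * E ((∏ i, B i) * ∏ p ∈ S, p) := by
          rw [hR]
          beta_reduce
          rw [if_neg hPS]
        have e3 : Q = Ts.filter (fun t => (∀ i, B i ∣ W * t + c i) ∧ ∀ p ∈ S, ∃ i, p ∣ W * t + c i) := by
          ext t
          rw [hQ t, mem_filter, and_assoc]
          refine and_congr_right fun _ => and_congr_right fun _ => forall₂_congr fun p hp => ?_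
          have hpP : p ≠ P := by
            rintro rfl
            exact hPS hp
          exact ⟨fun h => h.2, fun h => ⟨hpP, h⟩⟩
        rw [e1, e2, e3]
        convert h2
    have h1 := hC0 j b0 hb0 w z (by omega) hw hwz
      g hgd (Ts.filter (fun t => ∀ i, B i ∣ W * t + c i)) (fun t p => p ≠ P ∧ ∃ i, p ∣ W * t + c i)
      (Y / (∏ i, Ph c0 (B i))) R
      (by positivity) hR0 (fun S hS hS' => hN S hS hS' _ (fun t => by rw [@mem_filter, @mem_filter]))
    rw [hVQg] at h1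
    have h3 : (PK w z).powerset.filter (fun S => ∏ p ∈ S, p ≤ z ^ (4 * b0 + 10)) = Sb w z (4 * b0 + 10) := rfl
    rw [h3] at h1
    have h4 : ∑ S ∈ Sb w z (4 * b0 + 10), R S = ∑ S ∈ (Sb w z (4 * b0 + 10)).filter (fun S => P ∉ S),
        (j : ℝ) ^ S.card * E ((∏ i, B i) * ∏ p ∈ S, p) := by
      rw [sum_filter]
      refine sum_congr rfl fun S _ => ?_
      rw [hR]
      beta_reduce
      by_cases hPS : P ∈ S
      · rw [if_pos hPS, if_neg (not_not.2 hPS)]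
      · rw [if_neg hPS, if_pos hPS]
    rw [h4] at h1
    have h5 : (0 : ℝ) ≤ ∑ S ∈ (Sb w z (4 * b0 + 10)).filter (fun S => P ∉ S),
        (j : ℝ) ^ S.card * E ((∏ i, B i) * ∏ p ∈ S, p) :=
      sum_nonneg fun S _ => mul_nonneg (by positivity) (hD.E_nonneg _)
    have h6 := mul_le_mul_of_nonneg_right (egx_log hw hwz) h5
    have h7 : |Nn B - Y / (∏ i, Ph c0 (B i)) * VQ w z P c0 j| ≤
        Real.exp (-(b0 : ℝ)) * (Y / (∏ i, Ph c0 (B i)) * VQ w z P c0 j) +
        ((Nat.log 2 z : ℝ) + 2) * ∑ S ∈ (Sb w z (4 * b0 + 10)).filter (fun S => P ∉ S),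
        (j : ℝ) ^ S.card * E ((∏ i, B i) * ∏ p ∈ S, p) := by
      rw [hNn]
      beta_reduce
      convert h1
    exact h7.trans (add_le_add le_rfl h6)
  have e1 : ∑ B ∈ PC Ds, (∏ i, f i (B i)) * Nn B -
      Y * VQ w z P c0 j * ∑ B ∈ PC Ds, ∏ i, (f i (B i) / Ph c0 (B i)) =
      ∑ B ∈ PC Ds, (∏ i, f i (B i)) * (Nn B - Y / (∏ i, Ph c0 (B i)) * VQ w z P c0 j) := by
    rw [mul_sum, ← sum_sub_distrib]
    refine sum_congr rfl fun B _ => ?_
    rw [prod_div_distrib]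
    ring
  rw [e1]
  calc |∑ B ∈ PC Ds, (∏ i, f i (B i)) * (Nn B - Y / (∏ i, Ph c0 (B i)) * VQ w z P c0 j)|
      ≤ ∑ B ∈ PC Ds, (∏ i, |f i (B i)|) * (Real.exp (-(b0 : ℝ)) * (Y / (∏ i, Ph c0 (B i)) * VQ w z P c0 j) +
        (3 * Real.log z + 4) * ∑ S ∈ (Sb w z (4 * b0 + 10)).filter (fun S => P ∉ S),
          (j : ℝ) ^ S.card * E ((∏ i, B i) * ∏ p ∈ S, p)) := by
        refine (abs_sum_le_sum_abs _ _).trans (sum_le_sum fun B hB => ?_)
        rw [abs_mul, abs_prod]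
        exact mul_le_mul_of_nonneg_left (hone B hB) (prod_nonneg fun i _ => abs_nonneg _)
    _ = _ := by
        rw [mul_sum, mul_sum, mul_sum, ← sum_add_distrib]
        refine sum_congr rfl fun B _ => ?_
        rw [prod_div_distrib]
        ring

end H84UC
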