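import Pool.Agent.H84.UC.CuA
import Pool.Agent.H73.PC.Eva

/-!
# Ev: mean values of the pairs of configurations (as `Eva`)

`v0` = the product of the local factors for the forms of `κ0`, `v0 * Vf u` = the same with `u` more forms.
-/

open Finset EG H69PG H73PC

namespace H84UC

/-- `V U = Vf |U|` -/
def Vc {ι : Type} (Vf : ℕ → ℝ) (U : Finset ι) : ℝ := Vf U.card

variable {κ ι : Type} [Fintype κ] [DecidableEq κ] [Fintype ι] [DecidableEq ι]


omit [Fintype κ] [DecidableEq κ] [Fintype ι] [DecidableEq ι] in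
theorem Ev_core {w z P W M J Sm : ℕ} {Γ η Y v0 : ℝ} {Vf : ℕ → ℝ} {c0 : Option ℕ} {cH : κ → ℕ} {c : ι → ℕ} {Ts : Finset ℕ} {S : Finset (κ ⊕ ι)}
    (hMv : Mu w z P W M J Sm Γ η Ts Y S c0 (Sum.elim cH c)) (κ0 : Finset κ) (hVf : ∀ u, κ0.card + u ≤ J → VQ w z P c0 (κ0.card + u) = v0 * Vf u)
    (U : Finset ι) (hU : κ0.card + U.card ≤ J)
    (hκ0 : ∀ h ∈ κ0, Sum.inl h ∈ S) (hι : ∀ i : ι, Sum.inr i ∈ S)
    (PH : κ → ℕ → ℝ) (PI : ι → ℕ → ℝ) (sH : κ → ℝ) (sI : ι → ℝ) (zH : κ → ℕ) (zI : ι → ℕ)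
    (hH : ∀ h ∈ κ0, Cu w z P M Γ (zH h) (PH h) (sH h)) (hI : ∀ i ∈ U, Cu w z P M Γ (zI i) (PI i) (sI i))
    (hsz : (∏ h ∈ κ0, zH h) * ∏ i ∈ U, zI i ≤ Sm) :
    |∑ t ∈ Ts, (∏ h ∈ κ0, PH h (W * t + cH h)) * (∏ i ∈ U, PI i (W * t + c i)) -
        Y * (v0 * Vc Vf U) * ((∏ h ∈ κ0, sH h) * ∏ i ∈ U, sI i)| ≤
      η * (Y * v0 * Vc Vf U) := by
  have h := hMv.2.2 (κ0.disjSum U) (by
      intro x hx
      rw [Finset.mem_disjSum] at hx
      rcases hx with ⟨a, ha, rfl⟩ | ⟨b, -, rfl⟩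
      · exact hκ0 a ha
      · exact hι b) (by rw [Finset.card_disjSum]; exact hU) (Sum.elim PH PI) (Sum.elim sH sI) (Sum.elim zH zI) (by
      intro x hx
      rw [Finset.mem_disjSum] at hx
      rcases hx with ⟨a, ha, rfl⟩ | ⟨b, hb, rfl⟩
      · exact hH a ha
      · exact hI b hb) (by
      rw [Finset.prod_disjSum]
      exact hsz)
  rw [Finset.card_disjSum, hVf U.card hU] at h
  simp only [Finset.prod_disjSum, Sum.elim_inl, Sum.elim_inr] at h
  unfold Vc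
  rw [mul_assoc Y v0]
  exact h

theorem Ev_th (w z P L : ℕ) : thX w z P L * thX w z P L = thX w z P L := by
  unfold thX
  split_ifs <;> simp

theorem Ev_fac {ι : Type} {w z P W : ℕ} {Z : ℕ → ℕ} {f0 : ℕ → ℝ} (hZ0 : Z 0 = 1) (hZ : Monotone Z) (c : ι → ℕ) (i : ι)
    (a a' t : ℕ) (h : a ≠ 0 ∨ a' ≠ 0) :
    gX w z P W Z f0 c i a t * gX w z P W Z f0 c i a' t =
      (H1v_ff f0 a * H1v_ff f0 a') * (thX w z P (W * t + c i) *
        Fn (DAB Z (primorial z) a a') (fAB Z (primorial z) a a') (W * t + c i)) := by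
  have hth := Ev_th w z P (W * t + c i)
  unfold DAB fAB
  rw [← fn_mul]
  by_cases ha : a = 0
  · have ha' : a' ≠ 0 := by tauto
    subst ha
    rw [H1v_Fn_zero (primorial z) hZ0 hZ]
    unfold gX H1v_ff
    rw [if_pos rfl, if_pos rfl, if_neg ha', if_neg ha']
    ring
  · by_cases ha' : a' = 0
    · subst ha'
      rw [H1v_Fn_zero (primorial z) hZ0 hZ]
      unfold gX H1v_ff
      rw [if_neg ha, if_neg ha, if_pos rfl, if_pos rfl]
      ring
    · unfold gX H1v_ff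
      rw [if_neg ha, if_neg ha, if_neg ha', if_neg ha']
      linear_combination (f0 a * f0 a' * Fn (sq (primorial z) (Z a)) (lamA Z (primorial z) a) (W * t + c i) *
        Fn (sq (primorial z) (Z a')) (lamA Z (primorial z) a') (W * t + c i)) * hth

open Classical in
theorem Ev_gen {N mP mH M w z P W R Sm J : ℕ} {ZP ZH : ℕ → ℕ} {vP vH f0 y : ℕ → ℝ} {lP lH Γ η Y v0 : ℝ} {Vf : ℕ → ℝ} {c0 : Option ℕ}
    (hS : Sd κ ι N mP mH M z R Sm ZP ZH vP vH f0 y lP lH Γ) {cH : κ → ℕ} {c : ι → ℕ} {Ts : Finset ℕ} {S : Finset (κ ⊕ ι)}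
    (hJ : Fintype.card κ + 4 * N + 2 ≤ J) (hMv : Mu w z P W (2 * M) J Sm Γ η Ts Y S c0 (Sum.elim cH c)) (κ0 : Finset κ)
    (hVf : ∀ u, κ0.card + u ≤ J → VQ w z P c0 (κ0.card + u) = v0 * Vf u)
    (hκ0 : ∀ h ∈ κ0, Sum.inl h ∈ S) (hι : ∀ i : ι, Sum.inr i ∈ S)
    {n1 n1' : κ → Fin (mH + 1)} (hn1 : n1 ∈ Ad κ mH vH lH) (hn1' : n1' ∈ Ad κ mH vH lH)
    {n n' : ι → Fin (mP + 1)} (hn : n ∈ Cf ι mP N vP lP) (hn' : n' ∈ Cf ι mP N vP lP)
    (X : Finset ι) (hX : X.card ≤ 1) (hXd : Disjoint X (sp n ∪ sp n')) (FX : ι → ℕ → ℝ) (sX : ι → ℝ) (zX : ι → ℕ)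
    (hFX : ∀ i ∈ X, Cu w z P (2 * M) Γ (zX i) (FX i) (sX i)) (hzX : ∏ i ∈ X, zX i ≤ R * R) :
    |∑ t ∈ Ts, (∏ h ∈ κ0, (BlX w z P W ZH cH h (n1 h) t * BlX w z P W ZH cH h (n1' h) t)) *
          ((∏ i, (gX w z P W ZP f0 c i (n i) t * gX w z P W ZP f0 c i (n' i) t)) * ∏ i ∈ X, FX i (W * t + c i)) -
        (if ∀ h ∈ κ0, n1 h = n1' h then (∏ h ∈ κ0, wA ZH (primorial z) (n1 h)) *
          (Y * v0 * (if n = n' then (∏ i ∈ X, sX i) * (Vc Vf (X ∪ sp n) *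
            ∏ i, sA ZP (primorial z) f0 (n i)) else 0)) else 0)| ≤
      η * (Y * v0 * Vc Vf (X ∪ (sp n ∪ sp n'))) := by
  set U : Finset ι := sp n ∪ sp n' with hU
  set Q : ℕ := primorial z with hQ
  have hz1 : 1 ≤ z := by have := hS.z2; omega
  have hcn : (sp n).card ≤ N := ((Finset.mem_filter.1 hn).2).1
  have hcn' : (sp n').card ≤ N := ((Finset.mem_filter.1 hn').2).1
  have hUc : U.card ≤ 2 * N := by
    have h1 : U.card ≤ (sp n).card + (sp n').card := Finset.card_union_le (sp n) (sp n')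
    omega
  have hXU : (X ∪ U).card ≤ 2 * N + 1 := by
    have h1 := Finset.card_union_le X U
    omega
  have hκc : κ0.card ≤ Fintype.card κ := Finset.card_le_univ κ0
  have hmU : ∀ i, i ∈ U ↔ ((n i : ℕ) ≠ 0 ∨ (n' i : ℕ) ≠ 0) := by
    intro i
    rw [hU, Finset.mem_union, H1v_mem_sp, H1v_mem_sp]
  have hle : ∀ i, (n i : ℕ) ≤ mP := fun i => Nat.lt_succ_iff.1 (n i).2
  have hle' : ∀ i, (n' i : ℕ) ≤ mP := fun i => Nat.lt_succ_iff.1 (n' i).2
  have hleH : ∀ h, (n1 h : ℕ) ≤ mH := fun h => Nat.lt_succ_iff.1 (n1 h).2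
  have hleH' : ∀ h, (n1' h : ℕ) ≤ mH := fun h => Nat.lt_succ_iff.1 (n1' h).2
  have hf0 : ∀ a, |f0 a| ≤ 1 := fun a => by
    rw [abs_of_nonneg (hS.f0_nonneg a)]
    exact hS.f0_le a
  have hφ : ∀ i, |H1v_ff f0 (n i) * H1v_ff f0 (n' i)| ≤ 1 := by
    intro i
    rw [abs_mul]
    exact mul_le_one₀ (H1v_ff_le hf0 _) (abs_nonneg _) (H1v_ff_le hf0 _)
  set PH : κ → ℕ → ℝ := fun h L => 1 * (thX w z P L * (Fn (sq (primorial z) (ZH (n1 h))) (lamA ZH (primorial z) (n1 h)) L *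
      Fn (sq (primorial z) (ZH (n1' h))) (lamA ZH (primorial z) (n1' h)) L)) with hPH
  set sH : κ → ℝ := fun h => 1 * (if (n1 h : ℕ) = n1' h then wA ZH (primorial z) (n1 h) else 0) with hsH
  set PI : ι → ℕ → ℝ := fun i => if i ∈ X then FX i else fun L => H1v_ff f0 (n i) * H1v_ff f0 (n' i) *
      (thX w z P L * (Fn (sq (primorial z) (ZP (n i))) (lamA ZP (primorial z) (n i)) L *
      Fn (sq (primorial z) (ZP (n' i))) (lamA ZP (primorial z) (n' i)) L)) with hPI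
  set sI : ι → ℝ := fun i => if i ∈ X then sX i else H1v_ff f0 (n i) * H1v_ff f0 (n' i) *
      (if (n i : ℕ) = n' i then wA ZP (primorial z) (n i) else 0) with hsI
  set zI : ι → ℕ := fun i => if i ∈ X then zX i else ZP (n i) * ZP (n' i) with hzI
  have hUX : ∀ i ∈ U, i ∉ X := fun i hi hiX => Finset.disjoint_left.1 hXd hiX hi
  have core := Ev_core hMv κ0 hVf (X ∪ U) (by omega) hκ0 hι PH PI sH sI (fun h => ZH (n1 h) * ZH (n1' h)) zI
    (fun h _ => cuA hz1 hS.hM hS.Z0H hS.ZmH (hS.ZMH _ (hleH h)) (hS.ZMH _ (hleH' h)) hS.Γ_one (hS.ΓH _ (hleH h))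
      (hS.ΓH _ (hleH' h)) (by simp))
    (by
      intro i hi
      by_cases hiX : i ∈ X
      · simp only [hPI, hsI, hzI, if_pos hiX]
        exact hFX i hiX
      · simp only [hPI, hsI, hzI, if_neg hiX]
        exact cuA hz1 hS.hM hS.Z0P hS.ZmP (hS.ZMP _ (hle i)) (hS.ZMP _ (hle' i)) hS.Γ_one (hS.ΓP _ (hle i))
          (hS.ΓP _ (hle' i)) (hφ i))
    (by
      have hlev := hS.lev n1 hn1 n1' hn1' n hn n' hn'
      have hp1 : ∏ h ∈ κ0, (ZH (n1 h) * ZH (n1' h)) ≤ ∏ h, (ZH (n1 h) * ZH (n1' h)) := by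
        refine Nat.le_of_dvd ?_ (Finset.prod_dvd_prod_of_subset _ _ _ (Finset.subset_univ _))
        refine Finset.prod_pos fun h _ => ?_
        exact Nat.mul_pos (Eva_one_le hS.Z0H hS.ZmH _) (Eva_one_le hS.Z0H hS.ZmH _)
      have hp2 : ∏ i ∈ U, (ZP (n i) * ZP (n' i)) ≤ ∏ i, (ZP (n i) * ZP (n' i)) := by
        refine Nat.le_of_dvd ?_ (Finset.prod_dvd_prod_of_subset _ _ _ (Finset.subset_univ _))
        refine Finset.prod_pos fun h _ => ?_
        exact Nat.mul_pos (Eva_one_le hS.Z0P hS.ZmP _) (Eva_one_le hS.Z0P hS.ZmP _)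
      rw [Finset.prod_union hXd]
      have e1 : ∏ i ∈ X, zI i = ∏ i ∈ X, zX i := Finset.prod_congr rfl fun i hi => by simp only [hzI, if_pos hi]
      have e2 : ∏ i ∈ U, zI i = ∏ i ∈ U, (ZP (n i) * ZP (n' i)) :=
        Finset.prod_congr rfl fun i hi => by simp only [hzI, if_neg (hUX i hi)]
      rw [e1, e2]
      calc (∏ h ∈ κ0, (ZH (n1 h) * ZH (n1' h))) * ((∏ i ∈ X, zX i) * ∏ i ∈ U, (ZP (n i) * ZP (n' i)))
          ≤ (∏ h, (ZH (n1 h) * ZH (n1' h))) * ((R * R) * ∏ i, (ZP (n i) * ZP (n' i))) :=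
            Nat.mul_le_mul hp1 (Nat.mul_le_mul hzX hp2)
        _ = (∏ h, (ZH (n1 h) * ZH (n1' h))) * (∏ i, (ZP (n i) * ZP (n' i))) * (R * R) := by ring
        _ ≤ Sm := hlev)
  have hsum : ∑ t ∈ Ts, (∏ h ∈ κ0, (BlX w z P W ZH cH h (n1 h) t * BlX w z P W ZH cH h (n1' h) t)) *
          ((∏ i, (gX w z P W ZP f0 c i (n i) t * gX w z P W ZP f0 c i (n' i) t)) * ∏ i ∈ X, FX i (W * t + c i)) =
      ∑ t ∈ Ts, (∏ h ∈ κ0, PH h (W * t + cH h)) * (∏ i ∈ X ∪ U, PI i (W * t + c i)) := by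
    refine Finset.sum_congr rfl fun t _ => ?_
    have h0 : ∏ h ∈ κ0, (BlX w z P W ZH cH h (n1 h) t * BlX w z P W ZH cH h (n1' h) t) = ∏ h ∈ κ0, PH h (W * t + cH h) := by
      refine Finset.prod_congr rfl fun h _ => ?_
      simp only [hPH]
      unfold BlX
      linear_combination (Fn (sq (primorial z) (ZH (n1 h))) (lamA ZH (primorial z) (n1 h)) (W * t + cH h) *
        Fn (sq (primorial z) (ZH (n1' h))) (lamA ZH (primorial z) (n1' h)) (W * t + cH h)) * Ev_th w z P (W * t + cH h)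
    have h1 : ∏ i, (gX w z P W ZP f0 c i (n i) t * gX w z P W ZP f0 c i (n' i) t) = ∏ i ∈ U, PI i (W * t + c i) := by
      have h2 : ∏ i, (gX w z P W ZP f0 c i (n i) t * gX w z P W ZP f0 c i (n' i) t) =
          ∏ i ∈ U, (gX w z P W ZP f0 c i (n i) t * gX w z P W ZP f0 c i (n' i) t) := by
        symm
        refine Finset.prod_subset (Finset.subset_univ U) fun i _ hi => ?_
        rw [hmU, not_or, not_not, not_not] at hi
        rw [hi.1, hi.2]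
        simp [gX]
      rw [h2]
      refine Finset.prod_congr rfl fun i hi => ?_
      simp only [hPI, if_neg (hUX i hi)]
      rw [Ev_fac hS.Z0P hS.ZmP c i (n i) (n' i) t ((hmU i).1 hi)]
      unfold DAB fAB
      rw [← fn_mul]
    rw [h0, h1, Finset.prod_union hXd]
    have h3 : ∏ i ∈ X, PI i (W * t + c i) = ∏ i ∈ X, FX i (W * t + c i) := by
      refine Finset.prod_congr rfl fun i hi => ?_
      simp only [hPI, if_pos hi]
    rw [h3]
    ring
  have hmain : (if ∀ h ∈ κ0, n1 h = n1' h then (∏ h ∈ κ0, wA ZH (primorial z) (n1 h)) *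
          (Y * v0 * (if n = n' then (∏ i ∈ X, sX i) * (Vc Vf (X ∪ sp n) *
            ∏ i, sA ZP (primorial z) f0 (n i)) else 0)) else 0) =
      Y * (v0 * Vc Vf (X ∪ U)) * ((∏ h ∈ κ0, sH h) * ∏ i ∈ X ∪ U, sI i) := by
    by_cases h1 : ∀ h ∈ κ0, n1 h = n1' h
    · rw [if_pos h1]
      have e1 : ∏ h ∈ κ0, sH h = ∏ h ∈ κ0, wA ZH (primorial z) (n1 h) := by
        refine Finset.prod_congr rfl fun h hh => ?_
        simp only [hsH]
        rw [h1 h hh, if_pos rfl, one_mul]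
      rw [e1, Finset.prod_union hXd]
      have e2 : ∏ i ∈ X, sI i = ∏ i ∈ X, sX i := Finset.prod_congr rfl fun i hi => by simp only [hsI, if_pos hi]
      rw [e2]
      by_cases hnn : n = n'
      · rw [if_pos hnn]
        have hUn : U = sp n := by rw [hU, ← hnn, Finset.union_self]
        have e3 : ∏ i, sA ZP (primorial z) f0 (n i) = ∏ i ∈ U, sI i := by
          have e4 : ∏ i, sA ZP (primorial z) f0 (n i) = ∏ i ∈ U, sA ZP (primorial z) f0 (n i) := by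
            symm
            refine Finset.prod_subset (Finset.subset_univ U) fun i _ hi => ?_
            rw [hmU, not_or, not_not, not_not] at hi
            rw [hi.1]
            simp [sA]
          rw [e4]
          refine Finset.prod_congr rfl fun i hi => ?_
          have h3 : (n i : ℕ) ≠ 0 := by
            have := (hmU i).1 hi
            rw [← hnn] at this
            tauto
          simp only [hsI, if_neg (hUX i hi)]
          rw [← hnn, if_pos rfl]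
          unfold H1v_ff sA
          rw [if_neg h3, if_neg h3]
          ring
        rw [e3, ← hUn]
        ring
      · rw [if_neg hnn]
        obtain ⟨i, hi⟩ : ∃ i, n i ≠ n' i := by
          by_contra hcon
          push Not at hcon
          exact hnn (funext hcon)
        have hi' : (n i : ℕ) ≠ (n' i : ℕ) := fun h => hi (Fin.ext h)
        have hiU : i ∈ U := by
          rw [hmU]
          by_contra hcon
          rw [not_or, not_not, not_not] at hcon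
          exact hi' (hcon.1.trans hcon.2.symm)
        have h0 : ∏ i ∈ U, sI i = 0 := by
          refine Finset.prod_eq_zero hiU ?_
          simp only [hsI, if_neg (hUX i hiU), if_neg hi', mul_zero]
        rw [h0]
        ring
    · rw [if_neg h1]
      push Not at h1
      obtain ⟨h, hh, hne⟩ := h1
      have h0 : ∏ h ∈ κ0, sH h = 0 := by
        refine Finset.prod_eq_zero hh ?_
        have hne' : (n1 h : ℕ) ≠ (n1' h : ℕ) := fun h' => hne (Fin.ext h')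
        simp only [hsH, if_neg hne', mul_zero]
      rw [h0]
      ring
  rw [hsum, hmain]
  exact core

open Classical in
theorem exA {N mP mH M w z P W R Sm J : ℕ} {ZP ZH : ℕ → ℕ} {vP vH f0 y : ℕ → ℝ} {lP lH Γ η Y v0 : ℝ} {Vf : ℕ → ℝ} {c0 : Option ℕ}
    (hS : Sd κ ι N mP mH M z R Sm ZP ZH vP vH f0 y lP lH Γ) {cH : κ → ℕ} {c : ι → ℕ} {Ts : Finset ℕ} {S : Finset (κ ⊕ ι)}
    (hJ : Fintype.card κ + 4 * N + 2 ≤ J) (hMv : Mu w z P W (2 * M) J Sm Γ η Ts Y S c0 (Sum.elim cH c)) (κ0 : Finset κ)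
    (hVf : ∀ u, κ0.card + u ≤ J → VQ w z P c0 (κ0.card + u) = v0 * Vf u)
    (hκ0 : ∀ h ∈ κ0, Sum.inl h ∈ S) (hι : ∀ i : ι, Sum.inr i ∈ S)
    {n1 n1' : κ → Fin (mH + 1)} (hn1 : n1 ∈ Ad κ mH vH lH) (hn1' : n1' ∈ Ad κ mH vH lH)
    {n n' : ι → Fin (mP + 1)} (hn : n ∈ Cf ι mP N vP lP) (hn' : n' ∈ Cf ι mP N vP lP) :
    |∑ t ∈ Ts, (∏ h ∈ κ0, (BlX w z P W ZH cH h (n1 h) t * BlX w z P W ZH cH h (n1' h) t)) *
          (∏ i, (gX w z P W ZP f0 c i (n i) t * gX w z P W ZP f0 c i (n' i) t)) -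
        (if ∀ h ∈ κ0, n1 h = n1' h then (∏ h ∈ κ0, wA ZH (primorial z) (n1 h)) *
          (Y * v0 * (if n = n' then ms (Vc Vf) (sA ZP (primorial z) f0) n else 0)) else 0)| ≤
      η * (Y * v0 * Vc Vf (sp n ∪ sp n')) := by
  have h := Ev_gen hS hJ hMv κ0 hVf hκ0 hι hn1 hn1' hn hn' ∅ (by simp) (by simp) (fun _ _ => 1) (fun _ => 1) (fun _ => 1)
    (by simp) (by
      rw [Finset.prod_empty]
      exact Nat.mul_pos hS.R_pos hS.R_pos)
  simp only [Finset.prod_empty, mul_one, one_mul, Finset.empty_union] at h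
  exact h

open Classical in
theorem exB {N mP mH M w z P W R Sm J : ℕ} {ZP ZH : ℕ → ℕ} {vP vH f0 y : ℕ → ℝ} {lP lH Γ η Y v0 : ℝ} {Vf : ℕ → ℝ} {c0 : Option ℕ}
    (hS : Sd κ ι N mP mH M z R Sm ZP ZH vP vH f0 y lP lH Γ) {cH : κ → ℕ} {c : ι → ℕ} {Ts : Finset ℕ} {S : Finset (κ ⊕ ι)}
    (hJ : Fintype.card κ + 4 * N + 2 ≤ J) (hMv : Mu w z P W (2 * M) J Sm Γ η Ts Y S c0 (Sum.elim cH c)) (κ0 : Finset κ)
    (hVf : ∀ u, κ0.card + u ≤ J → VQ w z P c0 (κ0.card + u) = v0 * Vf u)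
    (hκ0 : ∀ h ∈ κ0, Sum.inl h ∈ S) (hι : ∀ i : ι, Sum.inr i ∈ S)
    {n1 n1' : κ → Fin (mH + 1)} (hn1 : n1 ∈ Ad κ mH vH lH) (hn1' : n1' ∈ Ad κ mH vH lH)
    {n n' : ι → Fin (mP + 1)} (hn : n ∈ Cf ι mP N vP lP) (hn' : n' ∈ Cf ι mP N vP lP) (k : ι) (hk : n k = 0) (hk' : n' k = 0) :
    |∑ t ∈ Ts, (∏ h ∈ κ0, (BlX w z P W ZH cH h (n1 h) t * BlX w z P W ZH cH h (n1' h) t)) *
          ((∏ i, (gX w z P W ZP f0 c i (n i) t * gX w z P W ZP f0 c i (n' i) t)) * bX w z P W R c k t) -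
        (if ∀ h ∈ κ0, n1 h = n1' h then (∏ h ∈ κ0, wA ZH (primorial z) (n1 h)) *
          (Y * v0 * (if n = n' then 1 / GG (primorial z) R * (Vc Vf (insert k (sp n)) *
            ∏ i, sA ZP (primorial z) f0 (n i)) else 0)) else 0)| ≤
      η * (Y * v0 * Vc Vf (insert k (sp n ∪ sp n'))) := by
  have hz1 : 1 ≤ z := by have := hS.z2; omega
  have hkn : k ∉ sp n ∪ sp n' := by
    rw [Finset.mem_union, H1v_mem_sp, H1v_mem_sp, hk, hk']
    simp
  have h := Ev_gen hS hJ hMv κ0 hVf hκ0 hι hn1 hn1' hn hn' {k} (by simp) (Finset.disjoint_singleton_left.2 hkn)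
    (fun _ L => thX w z P L * be (primorial z) R L) (fun _ => 1 / GG (primorial z) R) (fun _ => R * R)
    (fun i _ => cuB hz1 hS.R_pos hS.RM hS.Γ_one hS.ΓR) (by rw [Finset.prod_singleton])
  simp only [Finset.prod_singleton, Finset.singleton_union] at h
  exact h

end H84UC
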