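import Pool.Agent.H84.UC.Ev
import Pool.Agent.H73.PC.Om
import Pool.Agent.H69.PG.H4v

/-!
# Hy: the hypotheses of the abstract theorem (as `HyA`, `HyB`)
-/

open Finset EG H69PG H73PC

namespace H84UC

variable {κ ι : Type} [Fintype κ] [DecidableEq κ] [Fintype ι] [DecidableEq ι]

open Classical in
theorem Hy_main {mH : ℕ} {vH y ws : ℕ → ℝ} {lH η Y Wm v0 X V : ℝ} {Bf : κ → ℕ → ℕ → ℝ} {Ts : Finset ℕ} {F : ℕ → ℝ}
    (hy : ∀ a, 0 ≤ y a) (hWm : 1 ≤ Wm) (hv : 0 ≤ v0) (hη : 0 ≤ η) (hY : 0 ≤ Y) (hV : 0 ≤ V)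
    (hI0 : 1 ≤ I0 κ mH vH lH y ws)
    (h1 : ∀ n1 ∈ Ad κ mH vH lH, ∀ n1' ∈ Ad κ mH vH lH,
      |∑ t ∈ Ts, (∏ h ∈ (univ : Finset κ), (Bf h (n1 h) t * Bf h (n1' h) t)) * F t -
        (if ∀ h ∈ (univ : Finset κ), n1 h = n1' h then (∏ h ∈ (univ : Finset κ), ws (n1 h)) *
          (Y * v0 * X) else 0)| ≤ η * (Y * v0 * V)) :
    |∑ t ∈ Ts, La mH vH lH y Bf t ^ 2 * F t - (I0 κ mH vH lH y ws * (Y * v0)) * X| ≤
      (I0 κ mH vH lH y ws * (Y * v0)) *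
        ((η * (Wm * (∑ a ∈ Icc 1 mH, y a) ^ Fintype.card κ) ^ 2) * V) := by
  have hε : 0 ≤ η * (Y * v0 * V) := by positivity
  have h2 := om1 (m := mH) (v := vH) (l := lH) (y := y) (w := ws) (Bf := Bf) (T := Ts) (F := F)
    (X := Y * v0 * X) (ε := η * (Y * v0 * V)) hy (by
      intro n hn n' hn'
      have h3 := h1 n hn n' hn'
      by_cases heq : n = n'
      · rw [if_pos (fun h _ => congrFun heq h)] at h3
        rw [if_pos heq]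
        exact h3
      · rw [if_neg (fun hh => heq (funext fun h => hh h (Finset.mem_univ h)))] at h3
        rw [if_neg heq]
        exact h3)
  have hS0 : 0 ≤ ∑ n ∈ Ad κ mH vH lH, ∏ h, y (n h) :=
    Finset.sum_nonneg fun n _ => Finset.prod_nonneg fun h _ => hy _
  have hS1 : (∑ n ∈ Ad κ mH vH lH, ∏ h, y (n h)) ^ 2 ≤ ((∑ a ∈ Icc 1 mH, y a) ^ Fintype.card κ) ^ 2 :=
    pow_le_pow_left₀ hS0 (La_sum hy) 2
  have hW2 : 1 ≤ Wm ^ 2 := one_le_pow₀ hWm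
  have e1 : (I0 κ mH vH lH y ws * (Y * v0)) * X =
      I0 κ mH vH lH y ws * (Y * v0 * X) := by ring
  rw [e1]
  refine h2.trans ?_
  calc η * (Y * v0 * V) * (∑ n ∈ Ad κ mH vH lH, ∏ h, y (n h)) ^ 2
      ≤ η * (Y * v0 * V) * ((∑ a ∈ Icc 1 mH, y a) ^ Fintype.card κ) ^ 2 :=
        mul_le_mul_of_nonneg_left hS1 hε
    _ = 1 * (η * (Y * v0 * V) * ((∑ a ∈ Icc 1 mH, y a) ^ Fintype.card κ) ^ 2) := (one_mul _).symm
    _ ≤ (I0 κ mH vH lH y ws * Wm ^ 2) *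
        (η * (Y * v0 * V) * ((∑ a ∈ Icc 1 mH, y a) ^ Fintype.card κ) ^ 2) := by
        refine mul_le_mul_of_nonneg_right ?_ (by positivity)
        nlinarith
    _ = _ := by ring

theorem hx1 {N mP mH M w z P W R Sm J : ℕ} {ZP ZH : ℕ → ℕ} {vP vH f0 y : ℕ → ℝ} {lP lH Γ η Y Wm v0 : ℝ} {Vf : ℕ → ℝ} {c0 : Option ℕ}
    (hS : Sd κ ι N mP mH M z R Sm ZP ZH vP vH f0 y lP lH Γ) (hWm : 1 ≤ Wm) (hv : 0 ≤ v0) {cH : κ → ℕ} {c : ι → ℕ} {Ts : Finset ℕ}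
    (hJ : Fintype.card κ + 4 * N + 2 ≤ J) (hMv : Mu w z P W (2 * M) J Sm Γ η Ts Y univ c0 (Sum.elim cH c))
    (hVf : ∀ u, Fintype.card κ + u ≤ J → VQ w z P c0 (Fintype.card κ + u) = v0 * Vf u) (hVf0 : ∀ u, 0 ≤ Vf u)
    (hI0 : 1 ≤ I0 κ mH vH lH y (wA ZH (primorial z)))
    {n n' : ι → Fin (mP + 1)} (hn : n ∈ Cf ι mP N vP lP) (hn' : n' ∈ Cf ι mP N vP lP) :
    |∑ t ∈ Ts, La mH vH lH y (BlX w z P W ZH cH) t ^ 2 * (∏ i, (gX w z P W ZP f0 c i (n i) t * gX w z P W ZP f0 c i (n' i) t)) -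
        (I0 κ mH vH lH y (wA ZH (primorial z)) * (Y * v0)) *
          (if n = n' then ms (Vc Vf) (sA ZP (primorial z) f0) n else 0)| ≤
      (I0 κ mH vH lH y (wA ZH (primorial z)) * (Y * v0)) *
        ((η * (Wm * (∑ a ∈ Icc 1 mH, y a) ^ Fintype.card κ) ^ 2) * Vc Vf (sp n ∪ sp n')) := by
  refine Hy_main (F := fun t => ∏ i, (gX w z P W ZP f0 c i (n i) t * gX w z P W ZP f0 c i (n' i) t))
    hS.y_nonneg hWm hv hMv.2.1 hMv.1 (hVf0 _) hI0 ?_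
  intro n1 hn1 n1' hn1'
  exact exA hS hJ hMv univ (by rw [Finset.card_univ]; exact hVf) (fun _ _ => Finset.mem_univ _) (fun _ => Finset.mem_univ _) hn1 hn1' hn hn'

theorem hx2 {N mP mH M w z P W R Sm J : ℕ} {ZP ZH : ℕ → ℕ} {vP vH f0 y : ℕ → ℝ} {lP lH Γ η Y Wm v0 : ℝ} {Vf : ℕ → ℝ} {c0 : Option ℕ}
    (hS : Sd κ ι N mP mH M z R Sm ZP ZH vP vH f0 y lP lH Γ) (hWm : 1 ≤ Wm) (hv : 0 ≤ v0) {cH : κ → ℕ} {c : ι → ℕ} {Ts : Finset ℕ}
    (hJ : Fintype.card κ + 4 * N + 2 ≤ J) (hMv : Mu w z P W (2 * M) J Sm Γ η Ts Y univ c0 (Sum.elim cH c))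
    (hVf : ∀ u, Fintype.card κ + u ≤ J → VQ w z P c0 (Fintype.card κ + u) = v0 * Vf u) (hVf0 : ∀ u, 0 ≤ Vf u)
    (hI0 : 1 ≤ I0 κ mH vH lH y (wA ZH (primorial z)))
    {n n' : ι → Fin (mP + 1)} (hn : n ∈ Cf ι mP N vP lP) (hn' : n' ∈ Cf ι mP N vP lP) (k : ι) (hk : n k = 0) (hk' : n' k = 0) :
    |∑ t ∈ Ts, La mH vH lH y (BlX w z P W ZH cH) t ^ 2 *
          ((∏ i, (gX w z P W ZP f0 c i (n i) t * gX w z P W ZP f0 c i (n' i) t)) * bX w z P W R c k t) -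
        (I0 κ mH vH lH y (wA ZH (primorial z)) * (Y * v0)) *
          (if n = n' then 1 / GG (primorial z) R * (Vc Vf (insert k (sp n)) *
            ∏ i, sA ZP (primorial z) f0 (n i)) else 0)| ≤
      (I0 κ mH vH lH y (wA ZH (primorial z)) * (Y * v0)) *
        ((η * (Wm * (∑ a ∈ Icc 1 mH, y a) ^ Fintype.card κ) ^ 2) * Vc Vf (insert k (sp n ∪ sp n'))) := by
  refine Hy_main (F := fun t => (∏ i, (gX w z P W ZP f0 c i (n i) t * gX w z P W ZP f0 c i (n' i) t)) * bX w z P W R c k t)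
    hS.y_nonneg hWm hv hMv.2.1 hMv.1 (hVf0 _) hI0 ?_
  intro n1 hn1 n1' hn1'
  exact exB hS hJ hMv univ (by rw [Finset.card_univ]; exact hVf) (fun _ _ => Finset.mem_univ _) (fun _ => Finset.mem_univ _) hn1 hn1' hn hn' k hk hk'

theorem blx {w z P W a t : ℕ} {ZH : ℕ → ℕ} {cH : κ → ℕ} {h0 : κ} (hZ0 : ZH 0 = 1) (hZ : Monotone ZH)
    (hp : (W * t + cH h0).Prime) (hpz : z < W * t + cH h0) (hpZ : ZH a < W * t + cH h0) :
    BlX w z P W ZH cH h0 a t = wA ZH (primorial z) a := by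
  have hth : thX w z P (W * t + cH h0) = 1 := by
    unfold thX
    rw [if_pos]
    intro p hp'
    unfold PX PK at hp'
    rw [Finset.mem_erase, Finset.mem_filter, Finset.mem_Ioc] at hp'
    intro hd
    have := (Nat.prime_dvd_prime_iff_eq hp'.2.2 hp).1 hd
    omega
  have hZa : 1 ≤ ZH a := by
    have := hZ (Nat.zero_le a)
    rw [hZ0] at this
    exact this
  unfold BlX
  rw [hth, one_mul]
  unfold Fn
  rw [H4v_filter (y := ZH a) hZa le_rfl ?_, Finset.sum_singleton, lamA_one _ hZ0 hZ]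
  intro p hp1 hp2 hd
  have := (Nat.prime_dvd_prime_iff_eq hp1 hp).1 hd
  omega

theorem hxB {N mP mH M w z P W R Sm J : ℕ} {ZP ZH : ℕ → ℕ} {vP vH f0 y : ℕ → ℝ} {lP lH Γ η Y Wm v0 : ℝ} {Vf : ℕ → ℝ} {c0 : Option ℕ}
    (hS : Sd κ ι N mP mH M z R Sm ZP ZH vP vH f0 y lP lH Γ) (hWm : 1 ≤ Wm) (hwm : ∀ a ≤ mH, wA ZH (primorial z) a ≤ Wm)
    (hv : 0 ≤ v0) {cH : κ → ℕ} {c : ι → ℕ} {Ts : Finset ℕ} (h0 : κ)
    (hTs : ∀ t ∈ Ts, (W * t + cH h0).Prime ∧ z < W * t + cH h0 ∧ ∀ a ≤ mH, ZH a < W * t + cH h0)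
    (hJ : Fintype.card κ + 4 * N + 2 ≤ J)
    (hMv : Mu w z P W (2 * M) J Sm Γ η Ts Y (univ.erase (Sum.inl h0)) c0 (Sum.elim cH c))
    (hVf : ∀ u, Fintype.card κ - 1 + u ≤ J → VQ w z P c0 (Fintype.card κ - 1 + u) = v0 * Vf u) (hVf0 : ∀ u, 0 ≤ Vf u)
    (hIp : 1 ≤ Ip mH vH lH y (wA ZH (primorial z)) h0)
    {n n' : ι → Fin (mP + 1)} (hn : n ∈ Cf ι mP N vP lP) (hn' : n' ∈ Cf ι mP N vP lP) :
    |∑ t ∈ Ts, La mH vH lH y (BlX w z P W ZH cH) t ^ 2 * (∏ i, (gX w z P W ZP f0 c i (n i) t * gX w z P W ZP f0 c i (n' i) t)) -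
        (Ip mH vH lH y (wA ZH (primorial z)) h0 * (Y * v0)) *
          (if n = n' then ms (Vc Vf) (sA ZP (primorial z) f0) n else 0)| ≤
      (Ip mH vH lH y (wA ZH (primorial z)) h0 * (Y * v0)) *
        ((η * (Wm * (∑ a ∈ Icc 1 mH, y a) ^ Fintype.card κ) ^ 2) * Vc Vf (sp n ∪ sp n')) := by
  have hY : 0 ≤ Y := hMv.1
  have hη : 0 ≤ η := hMv.2.1
  have hw0 : ∀ a, 0 ≤ wA ZH (primorial z) a := fun a => wA_nonneg _ hS.ZmH a
  have hy : ∀ a, 0 ≤ y a := hS.y_nonneg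
  have hVu : 0 ≤ Vc Vf (sp n ∪ sp n') := by
    exact hVf0 _
  have hcard : (univ.erase h0 : Finset κ).card = Fintype.card κ - 1 := by
    rw [Finset.card_erase_of_mem (Finset.mem_univ _), Finset.card_univ]
  have h3 := om3 (κ := κ) (m := mH) (v := vH) (l := lH) (y := y) (w := wA ZH (primorial z)) hy
    (Bf := BlX w z P W ZH cH) (T := Ts)
    (F := fun t => ∏ i, (gX w z P W ZP f0 c i (n i) t * gX w z P W ZP f0 c i (n' i) t))
    (X := Y * v0 * (if n = n' then ms (Vc Vf) (sA ZP (primorial z) f0) n else 0))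
    (ε := η * (Y * v0 * Vc Vf (sp n ∪ sp n'))) h0 hw0
    (by
      intro t ht a ha
      rw [Finset.mem_Icc] at ha
      obtain ⟨h1, h2, h4⟩ := hTs t ht
      exact blx hS.Z0H hS.ZmH h1 h2 (h4 a ha.2))
    (by
      intro n1 hn1 n1' hn1'
      have h := exA hS hJ hMv (univ.erase h0) (by rw [hcard]; exact hVf) (by
        intro h hh
        rw [Finset.mem_erase] at hh ⊢
        exact ⟨fun he => hh.1 (Sum.inl.inj he), Finset.mem_univ _⟩) (by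
        intro i
        rw [Finset.mem_erase]
        exact ⟨Sum.inr_ne_inl, Finset.mem_univ _⟩) hn1 hn1' hn hn'
      by_cases hc : ∀ h, h ≠ h0 → n1 h = n1' h
      · rw [if_pos hc]
        rw [if_pos (fun h hh => hc h (Finset.ne_of_mem_erase hh))] at h
        exact h
      · rw [if_neg hc]
        rw [if_neg (fun hh => hc (fun h hne => hh h (Finset.mem_erase.2 ⟨hne, Finset.mem_univ _⟩)))] at h
        exact h)
  have hSum : ∑ n1 ∈ Ad κ mH vH lH, (∏ h, y (n1 h)) * wA ZH (primorial z) (n1 h0) ≤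
      Wm * (∑ a ∈ Icc 1 mH, y a) ^ Fintype.card κ := by
    calc ∑ n1 ∈ Ad κ mH vH lH, (∏ h, y (n1 h)) * wA ZH (primorial z) (n1 h0)
        ≤ ∑ n1 ∈ Ad κ mH vH lH, Wm * (∏ h, y (n1 h)) := by
          refine Finset.sum_le_sum fun n1 _ => ?_
          rw [mul_comm]
          exact mul_le_mul_of_nonneg_right (hwm _ (Nat.lt_succ_iff.1 (n1 h0).isLt))
            (Finset.prod_nonneg fun h _ => hy _)
      _ = Wm * ∑ n1 ∈ Ad κ mH vH lH, ∏ h, y (n1 h) := by rw [Finset.mul_sum]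
      _ ≤ Wm * (∑ a ∈ Icc 1 mH, y a) ^ Fintype.card κ :=
          mul_le_mul_of_nonneg_left (La_sum hy) (by linarith)
  have hSum0 : 0 ≤ ∑ n1 ∈ Ad κ mH vH lH, (∏ h, y (n1 h)) * wA ZH (primorial z) (n1 h0) :=
    Finset.sum_nonneg fun n1 _ => mul_nonneg (Finset.prod_nonneg fun h _ => hy _) (hw0 _)
  have hsq := pow_le_pow_left₀ hSum0 hSum 2
  have hYV : 0 ≤ Y * v0 := mul_nonneg hY hv
  have hE : 0 ≤ η * (Y * v0 * Vc Vf (sp n ∪ sp n')) :=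
    mul_nonneg hη (mul_nonneg hYV hVu)
  have h4 : Ip mH vH lH y (wA ZH (primorial z)) h0 *
      (Y * v0 * (if n = n' then ms (Vc Vf) (sA ZP (primorial z) f0) n else 0)) =
      (Ip mH vH lH y (wA ZH (primorial z)) h0 * (Y * v0)) *
          (if n = n' then ms (Vc Vf) (sA ZP (primorial z) f0) n else 0) := by ring
  rw [h4] at h3
  refine h3.trans ?_
  set A := (Wm * (∑ a ∈ Icc 1 mH, y a) ^ Fintype.card κ) ^ 2 with hA
  have hA0 : 0 ≤ A := sq_nonneg _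
  calc η * (Y * v0 * Vc Vf (sp n ∪ sp n')) *
        (∑ n1 ∈ Ad κ mH vH lH, (∏ h, y (n1 h)) * wA ZH (primorial z) (n1 h0)) ^ 2
      ≤ η * (Y * v0 * Vc Vf (sp n ∪ sp n')) * A :=
        mul_le_mul_of_nonneg_left hsq hE
    _ = 1 * (η * (Y * v0 * Vc Vf (sp n ∪ sp n')) * A) := by ring
    _ ≤ Ip mH vH lH y (wA ZH (primorial z)) h0 *
          (η * (Y * v0 * Vc Vf (sp n ∪ sp n')) * A) :=
        mul_le_mul_of_nonneg_right hIp (mul_nonneg hE hA0)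
    _ = (Ip mH vH lH y (wA ZH (primorial z)) h0 * (Y * v0)) *
        ((η * A) * Vc Vf (sp n ∪ sp n')) := by ring

end H84UC
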