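import Pool.Agent.H84.UC.Egx
import Pool.Agent.H84.UC.Vqx
import Pool.Agent.H73.PC.Pb
import Pool.Agent.H73.PC.Mns
import Pool.Agent.H82.LX.Nco

/-!
# ROW Mnx: the mean values

PROOF: adapt `mns`, `mnu` (`Pool/Agent/H73/PC/Mns.lean`, `Mnu.lean`). `C` = the constant of `egx`. For `U ⊆ S`, `u = |U| ≤ J`, index type `{i // i ∈ U}` (`Finset.prod_coe_sort`, `Fintype.card_coe`), `D i`, `f i` from `Cu` (`choose`). With `A1 = 4 Γ^5`:
* `egx` (`C (u+1) ≤ C (J+1) ≤ b0`, `4 u + 4 ≤ w`; `(∏ B i) z^(4 b0 + 10) ≤ Sm z^(..) ≤ Dm`): `|∑ - Y VQ_u S1| ≤ e^(-b0) Y VQ_u S2 + (3 log z + 4) S3`;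
* `phb` (`Pb.lean`, `u M ≤ J M ≤ z`): `|S1 - Mm| ≤ 2 u M/z A1^u`, `S2 ≤ 3 A1^u`; `nco` (`Nco.lean`): `|Mm - ∏ SS| ≤ 9 u²/z A1^u`;
* `S3`: the sum over `S` with `P ∉ S` of `u^|S| E(d)`, `d = (∏ B i) ∏ S`; here `¬ P ∣ d` (prime factors of `B i` are `> z ≥ P`), so it is at most the sum over all `S ∈ Sb` with `E0 d = if P ∣ d then 0 else E d` (`E0 ≥ 0`), and `erg` (`Pb.lean`, `C0 = 3`, `Fc = 4 Γ²`) gives
  `S3 ≤ (4 Γ²)^u ErS Dm ((u+1)² 3) E0 ≤ (4 Γ²)^J ErX Dm P ((J+1)² 3) E` (`Mns_ErS`; `ErS` of `E0` is `ErX` of `E`: `Finset.sum_filter`).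
* `VQ_J ≤ VQ_u` (`vq_anti`), `A1^u ≤ A1^J`, and `hEr`. All `VQ > 0` (`vq_pos`), `Y ≥ 0`.
-/

open Finset EG H69PG H73PC

namespace H84UC

theorem Mnx_ErS (Dm P : ℕ) (C : ℝ) (E : ℕ → ℝ) :
    ErS Dm C (fun d => if P ∣ d then 0 else E d) = ErX Dm P C E := by
  unfold ErS ErX
  rw [Finset.sum_filter, Finset.sum_filter]
  refine Finset.sum_congr rfl fun d _ => ?_
  show (if Squarefree d then C ^ d.primeFactors.card * (if P ∣ d then 0 else E d) else 0) = _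
  by_cases h1 : Squarefree d
  · by_cases h2 : P ∣ d
    · rw [if_pos h1, if_pos h2, if_neg (fun h => h.2 h2), mul_zero]
    · rw [if_pos h1, if_neg h2, if_pos ⟨h1, h2⟩]
  · rw [if_neg h1, if_neg (fun h => h1 h.1)]

theorem Mnx_S3 {ι : Type} [Fintype ι] [DecidableEq ι] {w z Dm e P J : ℕ} (hwz : w ≤ z) (hP : P.Prime) (hPz : P ≤ z)
    (hcard : Fintype.card ι ≤ J) {Ds : ι → Finset ℕ} {f : ι → ℕ → ℝ} {Γ : ℝ} (hΓ : 1 ≤ Γ)
    (hG : ∀ i, Good (primorial z) (Ds i))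
    (hf : ∀ i, ∀ B ∈ Ds i, |f i B| ≤ 4 * Γ ^ 2 * 3 ^ B.primeFactors.card) {E : ℕ → ℝ} (hE : ∀ d, 0 ≤ E d)
    (hDm : ∀ B ∈ Fintype.piFinset Ds, (∏ i, B i) * z ^ e ≤ Dm) :
    ∑ B ∈ PC Ds, (∏ i, |f i (B i)|) *
        ∑ S ∈ (Sb w z e).filter (fun S => P ∉ S), (Fintype.card ι : ℝ) ^ S.card * E ((∏ i, B i) * ∏ p ∈ S, p) ≤
      (4 * Γ ^ 2) ^ J * ErX Dm P (((J : ℝ) + 1) ^ 2 * 3) E := by
  have hΓ2 : 1 ≤ Γ ^ 2 := one_le_pow₀ hΓ
  have hE0n : ∀ d, 0 ≤ (fun d : ℕ => if P ∣ d then 0 else E d) d := by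
    intro d
    show (0 : ℝ) ≤ if P ∣ d then 0 else E d
    split_ifs
    · exact le_refl _
    · exact hE d
  have h1 := erg (w := w) (z := z) (Dm := Dm) (e := e) hwz (Ds := Ds) (f := f) (Fc := 4 * Γ ^ 2) (C0 := 3)
    (by linarith) (by norm_num) hG hf hE0n hDm
  have h2 : ∑ B ∈ PC Ds, (∏ i, |f i (B i)|) *
        ∑ S ∈ (Sb w z e).filter (fun S => P ∉ S), (Fintype.card ι : ℝ) ^ S.card * E ((∏ i, B i) * ∏ p ∈ S, p) ≤
      ∑ B ∈ PC Ds, (∏ i, |f i (B i)|) * ∑ S ∈ Sb w z e, (Fintype.card ι : ℝ) ^ S.card *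
        (fun d : ℕ => if P ∣ d then 0 else E d) ((∏ i, B i) * ∏ p ∈ S, p) := by
    refine Finset.sum_le_sum fun B hB => mul_le_mul_of_nonneg_left ?_ (Finset.prod_nonneg fun i _ => abs_nonneg _)
    rw [Finset.sum_filter]
    refine Finset.sum_le_sum fun S hS => ?_
    by_cases h : P ∉ S
    swap
    · rw [if_neg h]
      exact mul_nonneg (pow_nonneg (Nat.cast_nonneg _) _) (hE0n _)
    · rw [if_pos h]
      have hnd : ¬ P ∣ (∏ i, B i) * ∏ p ∈ S, p := by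
        intro hd
        unfold PC at hB
        rw [Finset.mem_filter, Fintype.mem_piFinset] at hB
        rcases hP.prime.dvd_or_dvd hd with h3 | h3
        · obtain ⟨i, -, hi⟩ := (hP.prime.dvd_finsetProd_iff _).1 h3
          have h4 := Pb_big ((hG i) (B i) (hB.1 i)).2 hP hi
          omega
        · obtain ⟨p, hpS, hp⟩ := (hP.prime.dvd_finsetProd_iff _).1 h3
          unfold Sb at hS
          rw [Finset.mem_filter, Finset.mem_powerset] at hS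
          have h5 := hS.1 hpS
          unfold PK at h5
          rw [Finset.mem_filter] at h5
          have h6 := (Nat.prime_dvd_prime_iff_eq hP h5.2).1 hp
          rw [← h6] at hpS
          exact h hpS
      show _ ≤ (Fintype.card ι : ℝ) ^ S.card * (if P ∣ (∏ i, B i) * ∏ p ∈ S, p then 0 else E ((∏ i, B i) * ∏ p ∈ S, p))
      rw [if_neg hnd]
  have hjJ : (Fintype.card ι : ℝ) ≤ J := by exact_mod_cast hcard
  have hj0 : (0 : ℝ) ≤ (Fintype.card ι : ℝ) := Nat.cast_nonneg _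
  have h3 : ErS Dm (((Fintype.card ι : ℝ) + 1) ^ 2 * 3) (fun d : ℕ => if P ∣ d then 0 else E d) ≤
      ErX Dm P (((J : ℝ) + 1) ^ 2 * 3) E := by
    rw [← Mnx_ErS]
    refine Mns_ErS (by positivity) ?_ hE0n
    have h4 : ((Fintype.card ι : ℝ) + 1) ^ 2 ≤ ((J : ℝ) + 1) ^ 2 := pow_le_pow_left₀ (by positivity) (by linarith) 2
    linarith
  have h4 : 0 ≤ ErS Dm (((Fintype.card ι : ℝ) + 1) ^ 2 * 3) (fun d : ℕ => if P ∣ d then 0 else E d) := by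
    unfold ErS
    exact Finset.sum_nonneg fun d _ => mul_nonneg (by positivity) (hE0n d)
  have h5 : (4 * Γ ^ 2) ^ Fintype.card ι ≤ (4 * Γ ^ 2) ^ J := pow_le_pow_right₀ (by linarith) hcard
  refine h2.trans (h1.trans ?_)
  exact mul_le_mul h5 h3 h4 (by positivity)

/-- the final numerical estimate -/
theorem Mnx_num {T Y V VJ S1 S2 S3 M0 P A AJ e a b δ a' b' lz : ℝ} (hY : 0 ≤ Y) (hV : 0 ≤ V) (hVJ : VJ ≤ V)
    (he : 0 ≤ e) (h1 : |T - Y * V * S1| ≤ e * (Y * V * S2) + lz * S3) (h2 : |S1 - M0| ≤ a * A) (h3 : S2 ≤ 3 * A)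
    (h4 : |M0 - P| ≤ b * A) (h5 : lz * S3 ≤ δ * (Y * VJ)) (hδ : 0 ≤ δ) (hA : A ≤ AJ) (hA0 : 0 ≤ A) (ha : a ≤ a') (hb : b ≤ b')
    (ha0 : 0 ≤ a) (hb0 : 0 ≤ b) :
    |T - Y * V * P| ≤ ((3 * e + (a' + b')) * AJ + δ) * (Y * V) := by
  have e1 : T - Y * V * P = (T - Y * V * S1) + Y * V * (S1 - M0) + Y * V * (M0 - P) := by ring
  have hYV : 0 ≤ Y * V := mul_nonneg hY hV
  have a1 : e * (Y * V * S2) ≤ e * (Y * V * (3 * A)) :=
    mul_le_mul_of_nonneg_left (mul_le_mul_of_nonneg_left h3 hYV) he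
  have a2 : |Y * V * (S1 - M0)| ≤ Y * V * (a * A) := by
    rw [abs_mul, abs_of_nonneg hYV]
    exact mul_le_mul_of_nonneg_left h2 hYV
  have a3 : |Y * V * (M0 - P)| ≤ Y * V * (b * A) := by
    rw [abs_mul, abs_of_nonneg hYV]
    exact mul_le_mul_of_nonneg_left h4 hYV
  have a4 : δ * (Y * VJ) ≤ δ * (Y * V) := mul_le_mul_of_nonneg_left (mul_le_mul_of_nonneg_left hVJ hY) hδ
  have a5 : (3 * e + (a + b)) * A ≤ (3 * e + (a' + b')) * AJ := by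
    refine mul_le_mul (by linarith) hA hA0 ?_
    linarith
  calc |T - Y * V * P| = |(T - Y * V * S1) + Y * V * (S1 - M0) + Y * V * (M0 - P)| := by rw [e1]
    _ ≤ |T - Y * V * S1| + |Y * V * (S1 - M0)| + |Y * V * (M0 - P)| := by
        refine (abs_add_le _ _).trans (add_le_add_left ?_ _)
        exact abs_add_le _ _
    _ ≤ (e * (Y * V * (3 * A)) + δ * (Y * V)) + Y * V * (a * A) + Y * V * (b * A) := by
        refine add_le_add (add_le_add ?_ a2) a3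
        linarith
    _ = ((3 * e + (a + b)) * A + δ) * (Y * V) := by ring
    _ ≤ _ := mul_le_mul_of_nonneg_right (by linarith) hYV

theorem mnx : ∃ C : ℕ, 1 ≤ C ∧ ∀ J b0 : ℕ, C * (J + 1) ≤ b0 → ∀ (ι : Type) [Fintype ι] [DecidableEq ι]
    (w z W Dm P M Sm : ℕ) (Γ δ : ℝ), 4 * J + 4 ≤ w → w ≤ z → P.Prime → P ≤ z → J * M ≤ z → 1 ≤ Γ → 0 ≤ δ →
    ∀ (S : Finset ι) (c0 : Option ℕ) (c : ι → ℕ) (Ts : Finset ℕ) (Y : ℝ) (E : ℕ → ℝ),
    Fw w z w W c0 (fun i : {i // i ∈ S} => c i) → DsX w Dm W P c0 Ts Y E → Sm * z ^ (4 * b0 + 10) ≤ Dm →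
    (3 * Real.log z + 4) * ((4 * Γ ^ 2) ^ J * ErX Dm P (((J : ℝ) + 1) ^ 2 * 3) E) ≤ δ * (Y * VQ w z P c0 J) →
    Mu w z P W M J Sm Γ ((3 * Real.exp (-(b0 : ℝ)) + (2 * (J : ℝ) * M + 9 * (J : ℝ) ^ 2) / z) * (4 * Γ ^ 5) ^ J + δ) Ts Y S c0 c := by
  obtain ⟨C, hC1, hC⟩ := egx
  refine ⟨C, hC1, ?_⟩
  intro J b0 hb0 ι _ _ w z W Dm P M Sm Γ δ hJw hwz hP hPz hJM hΓ hδ S c0 c Ts Y E hF hDs hSm hEr
  have hz0 : (0 : ℝ) < z := by exact_mod_cast (by omega : 0 < z)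
  have hΓ0 : 0 < Γ := by linarith
  have hΓ5 : 1 ≤ Γ ^ 5 := one_le_pow₀ hΓ
  have hlogz0 : 0 ≤ 3 * Real.log z + 4 := by
    have : 0 ≤ Real.log z := Real.log_natCast_nonneg z
    linarith
  refine ⟨hDs.Y_nonneg, by positivity, fun U hU hcard F s sz hCu hsz => ?_⟩
  have key : ∀ i : {i // i ∈ U}, Cu w z P M Γ (sz i) (F i) (s i) := fun i => hCu i i.2
  choose Ds f g1 g2 g3 g4 g5 g6 g7 using key
  have hc : Fintype.card {i // i ∈ U} = U.card := Fintype.card_coe U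
  have hF' : Fw w z w W c0 (fun i : {i // i ∈ U} => c i) :=
    ⟨hF.pos, hF.pr, fun i i' h => Subtype.ext (congrArg (fun u : {i // i ∈ S} => (u : ι))
      (hF.inj (a₁ := ⟨i.1, hU i.2⟩) (a₂ := ⟨i'.1, hU i'.2⟩) h)),
      fun i i' => hF.df ⟨i.1, hU i.2⟩ ⟨i'.1, hU i'.2⟩, hF.Dz, fun i => hF.cpos ⟨i.1, hU i.2⟩,
      fun k hk i => hF.df0 k hk ⟨i.1, hU i.2⟩⟩
  have hDm : ∀ B ∈ Fintype.piFinset Ds, (∏ i, B i) * z ^ (4 * b0 + 10) ≤ Dm := by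
    intro B hB
    refine le_trans (Nat.mul_le_mul_right _ ?_) hSm
    refine le_trans ?_ hsz
    rw [← Finset.prod_coe_sort U sz]
    refine Finset.prod_le_prod' fun i _ => ?_
    exact (g2 i (B i) (Fintype.mem_piFinset.1 hB i)).2
  have hb0' : C * (U.card + 1) ≤ b0 := (Nat.mul_le_mul_left _ (by omega)).trans hb0
  have i1 := hC U.card b0 hb0' {i // i ∈ U} hc w z W Dm P (by omega) hwz hP hPz c0 (fun i => c i) Ts Y E hF' hDs Ds f g1 hDm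
  have hjM : Fintype.card {i // i ∈ U} * M ≤ z := by
    rw [hc]
    exact (Nat.mul_le_mul_right _ hcard).trans hJM
  obtain ⟨i2, i3⟩ := phb (z := z) (M := M) (by omega) hjM c0 g1 (fun i B hB => (g2 i B hB).1) g5
  have i4 := H82LX.nco (z := z) (by omega) Ds f (fun _ => 4 * Γ ^ 5) g1 g5 g3
  have i5 := Mnx_S3 (w := w) (z := z) (Dm := Dm) (e := 4 * b0 + 10) (P := P) (J := J) hwz hP hPz (by rw [hc]; exact hcard)
    hΓ g1 g4 hDs.E_nonneg hDm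
  rw [hc] at i2 i3 i4 i5
  rw [Finset.prod_const, Finset.card_univ, hc] at i4
  have hV : 0 < VQ w z P c0 U.card := vq_pos c0 (by omega)
  have hVJ : VQ w z P c0 J ≤ VQ w z P c0 U.card := vq_anti c0 hcard (by omega)
  have hjJ : (U.card : ℝ) ≤ J := by exact_mod_cast hcard
  have hj0 : (0 : ℝ) ≤ (U.card : ℝ) := Nat.cast_nonneg _
  have hM0 : (0 : ℝ) ≤ (M : ℝ) := Nat.cast_nonneg _
  have h6 := Mnx_num (AJ := (4 * Γ ^ 5) ^ J) (a' := 2 * (J : ℝ) * M / z) (b' := 9 * (J : ℝ) ^ 2 / z)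
    hDs.Y_nonneg hV.le hVJ (Real.exp_pos _).le i1 i2 i3 i4
    ((mul_le_mul_of_nonneg_left i5 hlogz0).trans hEr) hδ
    (pow_le_pow_right₀ (by linarith) hcard) (by positivity)
    (by
      refine div_le_div_of_nonneg_right ?_ hz0.le
      have := mul_le_mul_of_nonneg_right hjJ hM0
      linarith)
    (by
      refine div_le_div_of_nonneg_right ?_ hz0.le
      have := pow_le_pow_left₀ hj0 hjJ 2
      linarith) (by positivity) (by positivity)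
  have e1' : (∑ t ∈ Ts, ∏ i : {i // i ∈ U}, (thX w z P (W * t + c i) *
      Fn (Ds i) (f i) (W * t + c i))) = ∑ t ∈ Ts, ∏ i ∈ U, F i (W * t + c i) := by
    refine Finset.sum_congr rfl fun t _ => ?_
    rw [← Finset.prod_coe_sort U (fun i => F i (W * t + c i))]
    refine Finset.prod_congr rfl fun i _ => ?_
    exact (g6 i _).symm
  have e2' : (∏ i : {i // i ∈ U}, SS (Ds i) (f i) 1) = ∏ i ∈ U, s i := by
    rw [← Finset.prod_coe_sort U s]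
    exact Finset.prod_congr rfl fun i _ => g7 i
  rw [e1', e2', ← add_div] at h6
  exact h6

end H84UC
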