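import Pool.Agent.H73.PC.Par

/-!
# ROW Pmh: the parameters of the cluster, for a given natural number `B`

PROOF: as `parK` (`Pool/Agent/H73/PC/Par.lean`), where `B` is fixed first. `s = sc (1/64) B mH 1 = (1/64)/B^(mH-1)`. Choose `mH ≥ 3` with `mH ≥ 2048 * 256 (m'+1) Cg^5 Cv`; `q = 1/(1024 Cg² mH s) = B^(mH-1)/(16 Cg² mH) ≥ 1` as `B^(mH-1) ≥ 8 Cg² 10^(mH-2) ≥ 16 Cg² mH` (`B ≥ 8 Cg²`, `B ≥ 10`;
`Par_pow1`), `K = ⌊q⌋ ≥ q/2`. Then `K mH² s ≥ mH/(2048 Cg²) ≥ 256 (m'+1) Cg³ Cv`, and `mH² s ≤ mH²/(64 * 10^(mH-1)) ≤ 1` (`Par_pow2`), so `K ≥ 256 (m'+1) ≥ m'+1`.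
-/

open Finset EG H69PG H73PC

namespace H84UC

theorem pmh (Cg Cv : ℝ) (hCg : 1 ≤ Cg) (hCv : 1 ≤ Cv) (m' B : ℕ) (hB : 10 ≤ B) (hB8 : 8 * Cg ^ 2 ≤ B) : ∃ mH K : ℕ, 1 ≤ mH ∧ m' + 1 ≤ K ∧
    (K : ℝ) * (1024 * Cg ^ 2 * mH * sc (1 / 64) B mH 1) ≤ 1 ∧
    256 * ((m' : ℝ) + 1) * Cg ^ 3 * Cv ≤ (K : ℝ) * (mH : ℝ) ^ 2 * sc (1 / 64) B mH 1 := by
  obtain ⟨B', hB'⟩ : ∃ B' : ℕ, B' = B := ⟨_, rfl⟩
  subst hB'
  set X : ℝ := 2048 * 256 * ((m' : ℝ) + 1) * Cg ^ 5 * Cv with hX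
  have hm0 : (0 : ℝ) ≤ (m' : ℝ) := Nat.cast_nonneg _
  have hCg2 : 1 ≤ Cg ^ 2 := one_le_pow₀ hCg
  have hCg3 : 1 ≤ Cg ^ 3 := one_le_pow₀ hCg
  have hCg5 : 1 ≤ Cg ^ 5 := one_le_pow₀ hCg
  have hX3 : 3 ≤ X := by
    have h1 : 1 ≤ ((m' : ℝ) + 1) * Cg ^ 5 := by nlinarith
    have h2 : 1 ≤ ((m' : ℝ) + 1) * Cg ^ 5 * Cv := by nlinarith
    have h3 : X = 2048 * 256 * (((m' : ℝ) + 1) * Cg ^ 5 * Cv) := by rw [hX]; ring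
    rw [h3]
    linarith
  set mH : ℕ := ⌈X⌉₊ with hmH
  have hmX : X ≤ (mH : ℝ) := Nat.le_ceil X
  have hmH3 : 3 ≤ mH := by
    have : (3 : ℝ) ≤ (mH : ℝ) := hX3.trans hmX
    exact_mod_cast this
  obtain ⟨j, hj⟩ : ∃ j, mH = j + 3 := ⟨mH - 3, by omega⟩
  obtain ⟨B, hBB⟩ : ∃ B : ℝ, B = (B' : ℝ) := ⟨_, rfl⟩
  rw [← hBB] at hB8
  rw [← hBB]
  have hB10 : 10 ≤ B := by
    rw [hBB]
    exact_mod_cast hB
  have hB0 : 0 < B := by linarith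
  have hsc : sc (1 / 64) B mH 1 = 1 / 64 / B ^ (j + 2) := by
    rw [Par_sc, hj]
    rfl
  have hBp : 0 < B ^ (j + 2) := pow_pos hB0 _
  have hs0 : 0 < sc (1 / 64) B mH 1 := by
    rw [hsc]
    positivity
  have hmr : (mH : ℝ) = (j : ℝ) + 3 := by rw [hj]; push_cast; ring
  have hm0' : (0 : ℝ) < (mH : ℝ) := by rw [hmr]; positivity
  set D : ℝ := 1024 * Cg ^ 2 * mH * sc (1 / 64) B mH 1 with hD
  have hD0 : 0 < D := by rw [hD]; positivity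
  have hpow1 : 10 ^ (j + 1) ≤ B ^ (j + 1) := pow_le_pow_left₀ (by norm_num) hB10 _
  have hpow2 : 10 ^ (j + 2) ≤ B ^ (j + 2) := pow_le_pow_left₀ (by norm_num) hB10 _
  have hD1 : D ≤ 1 := by
    rw [hD, hsc, ← mul_div_assoc, div_le_one hBp]
    have h1 : B ^ (j + 2) = B ^ (j + 1) * B := pow_succ _ _
    have h2 : 2 * (mH : ℝ) ≤ B ^ (j + 1) := by
      rw [hmr]
      exact (Par_pow1 j).trans hpow1
    have h3 : 8 * Cg ^ 2 ≤ B := hB8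
    have h4 : 2 * (mH : ℝ) * (8 * Cg ^ 2) ≤ B ^ (j + 1) * B :=
      mul_le_mul h2 h3 (by positivity) (by positivity)
    rw [h1]
    calc 1024 * Cg ^ 2 * (mH : ℝ) * (1 / 64) = 2 * (mH : ℝ) * (8 * Cg ^ 2) := by ring
      _ ≤ _ := h4
  have hq1 : 1 ≤ 1 / D := (one_le_div hD0).2 hD1
  set K : ℕ := ⌊1 / D⌋₊ with hK
  have hKle : (K : ℝ) ≤ 1 / D := Nat.floor_le (by linarith)
  have hKge : 1 / D / 2 ≤ (K : ℝ) := by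
    have h1 : 1 / D < (K : ℝ) + 1 := Nat.lt_floor_add_one _
    have h2 : (1 : ℝ) ≤ (K : ℝ) := by
      have : 1 ≤ K := Nat.le_floor (by push_cast; exact hq1)
      exact_mod_cast this
    linarith
  have hlast : 256 * ((m' : ℝ) + 1) * Cg ^ 3 * Cv ≤ (K : ℝ) * (mH : ℝ) ^ 2 * sc (1 / 64) B mH 1 := by
    have h1 : 1 / D / 2 * ((mH : ℝ) ^ 2 * sc (1 / 64) B mH 1) ≤
        (K : ℝ) * ((mH : ℝ) ^ 2 * sc (1 / 64) B mH 1) :=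
      mul_le_mul_of_nonneg_right hKge (by positivity)
    have h2 : 1 / D / 2 * ((mH : ℝ) ^ 2 * sc (1 / 64) B mH 1) = (mH : ℝ) / (2048 * Cg ^ 2) := by
      rw [hD]
      field_simp
      ring
    have h3 : 256 * ((m' : ℝ) + 1) * Cg ^ 3 * Cv ≤ (mH : ℝ) / (2048 * Cg ^ 2) := by
      rw [le_div_iff₀ (by positivity)]
      calc 256 * ((m' : ℝ) + 1) * Cg ^ 3 * Cv * (2048 * Cg ^ 2) = X := by rw [hX]; ring
        _ ≤ _ := hmX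
    calc 256 * ((m' : ℝ) + 1) * Cg ^ 3 * Cv ≤ (mH : ℝ) / (2048 * Cg ^ 2) := h3
      _ ≤ (K : ℝ) * ((mH : ℝ) ^ 2 * sc (1 / 64) B mH 1) := by rw [← h2]; exact h1
      _ = _ := by ring
  have hsm : (mH : ℝ) ^ 2 * sc (1 / 64) B mH 1 ≤ 1 := by
    rw [hsc, ← mul_div_assoc, div_le_one hBp, hmr]
    have := (Par_pow2 j).trans (mul_le_mul_of_nonneg_left hpow2 (by norm_num : (0:ℝ) ≤ 64))
    linarith
  have hKm : m' + 1 ≤ K := by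
    have h1 : (K : ℝ) * ((mH : ℝ) ^ 2 * sc (1 / 64) B mH 1) ≤ (K : ℝ) * 1 :=
      mul_le_mul_of_nonneg_left hsm (Nat.cast_nonneg _)
    have h2 : (m' : ℝ) + 1 ≤ 256 * ((m' : ℝ) + 1) * Cg ^ 3 * Cv := by
      have e1 : (m' : ℝ) + 1 ≤ 256 * ((m' : ℝ) + 1) := by linarith
      have e2 : 256 * ((m' : ℝ) + 1) ≤ 256 * ((m' : ℝ) + 1) * Cg ^ 3 :=
        le_mul_of_one_le_right (by positivity) hCg3
      have e3 : 256 * ((m' : ℝ) + 1) * Cg ^ 3 ≤ 256 * ((m' : ℝ) + 1) * Cg ^ 3 * Cv :=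
        le_mul_of_one_le_right (by positivity) hCv
      linarith
    have h3 : (m' : ℝ) + 1 ≤ (K : ℝ) := by
      calc (m' : ℝ) + 1 ≤ 256 * ((m' : ℝ) + 1) * Cg ^ 3 * Cv := h2
        _ ≤ (K : ℝ) * (mH : ℝ) ^ 2 * sc (1 / 64) B mH 1 := hlast
        _ = (K : ℝ) * ((mH : ℝ) ^ 2 * sc (1 / 64) B mH 1) := by ring
        _ ≤ (K : ℝ) * 1 := h1
        _ = K := mul_one _
    exact_mod_cast h3
  refine ⟨mH, K, by omega, hKm, ?_, hlast⟩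
  calc (K : ℝ) * D ≤ 1 / D * D := mul_le_mul_of_nonneg_right hKle hD0.le
    _ = 1 := div_mul_cancel₀ 1 hD0.ne'

end H84UC
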