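import Pool.Agent.H84.UC.Wnf
import Pool.Agent.H84.UC.Vqx
import Pool.Agent.H82.LX.Zfu
import Pool.Agent.H67.GT.MERT

/-!
# ROW Vcv: the size of the product of the local factors

PROOF. `vq_two` and `vv1` (`Pool/Agent/H82/LX/Zfu.lean`): `VQ ≤ 2 C2 log K0/log z`, `log K0 ≤ 3 loglog n`, `log z ≥ (ε/2) log n` (`zfu`). `W/φ(W) = ∏_{p ≤ w0, p ≠ P} (1 - 1/p)^(-1) ≥ (1/2) ∏_{p ≤ w0} (1 - 1/p)^(-1) ≥ (1/2) log w0/c` (`MERT.mert`; `φ(W) = ∏ (p-1)` for the squarefree `W`)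
and `log w0 ≥ loglog n/40` (`wn_ev`).
-/

open Finset EG H69PG H73PC H82LX

namespace H84UC

/-- upper bound, used for the number of shifts -/
theorem vcu : ∃ C : ℝ, 1 ≤ C ∧ ∃ n0 : ℕ, ∀ n : ℕ, n0 ≤ n → ∀ (P : ℕ) (ε : ℝ), 0 < ε → 2 ≤ ε * Real.log n → K0 n ≤ zf ε n →
    VQ (K0 n) (zf ε n) P none 1 ≤ C * Real.log (Real.log n) / (ε * Real.log n) := by
  sorry

theorem vcv : ∃ Cv : ℝ, 1 ≤ Cv ∧ ∃ n0 : ℕ, ∀ n : ℕ, n0 ≤ n → ∀ (P : ℕ) (ε : ℝ), 0 < ε → 2 ≤ ε * Real.log n → K0 n ≤ zf ε n →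
    VQ (K0 n) (zf ε n) P none 1 ≤ Cv / ε * ((Wn n P : ℝ) / (Nat.totient (Wn n P) * Real.log n)) := by
  sorry

end H84UC
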