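import Pool.Agent.H84.UC.Defs

/-!
# ROW Wnf: the modulus `W` and the sizes

* `Wn n P` is the product of the primes `p ≤ w0 n`, `p ≠ P`; it divides `primorial (w0 n) ≤ 4^(w0 n)` (`primorial_le_four_pow`), `w0 n ≤ rh n/200`, `log 4 ≤ 200/144` (`Real.log_two_lt_d9`). A prime dividing a product of primes is one of them (`Prime.dvd_finset_prod_iff`).
* `wn_ev`: `rh n = (log n)^(1/20)` tends to infinity (`BVX.rh_tendsto`), slower than every power of `log n`; `Tn = n/(4 W)` (division of natural numbers) `≥ n/(4W) - 1 ≥ n/(8W)` as `n/(8W) ≥ n e^(-rh n)/8 ≥ 1`; the exponents: `e^(rh n) ≤ n^(1/100)` for large `n` (`rh n ≤ log n/100`).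
-/

open Finset EG H69PG H73PC

namespace H84UC

theorem wn_pos (n P : ℕ) : 1 ≤ Wn n P := by
  sorry

theorem wn_pr {n P p : ℕ} (hp : p.Prime) (h : p ∣ Wn n P) : p ≤ w0 n := by
  sorry

theorem wn_P {n P : ℕ} (hP : P.Prime) : ¬ P ∣ Wn n P := by
  sorry

theorem wn_dvd {n P p : ℕ} (hp : p.Prime) (h : p ≤ w0 n) (h' : p ≠ P) : p ∣ Wn n P := by
  sorry

theorem wn_le (n P : ℕ) : (Wn n P : ℝ) ≤ Real.exp (BVX.rh n / 144) := by
  sorry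

theorem wn_T (n P : ℕ) : Wn n P * Tn n P ≤ n / 4 := by
  sorry

theorem wn_ev : ∃ n0 : ℕ, ∀ n : ℕ, n0 ≤ n → 2 ≤ w0 n ∧ w0 n ≤ K0 n ∧ 2 ≤ K0 n ∧ Real.log n ≤ K0 n ∧ Real.log n ^ 2 + 1 ≤ K0 n ∧
    (K0 n : ℝ) ≤ Real.log n ^ 3 ∧ Real.log (Real.log n) ≤ 40 * Real.log (w0 n) ∧ BVX.rh n ≤ Real.log n / 100 ∧
    ∀ P : ℕ, (n : ℝ) / (8 * Wn n P) ≤ Tn n P := by
  sorry

end H84UC
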